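import Pool.Agent.MP_1246c0_nt.H12.SpecN

/-! The final assembly of the counting argument. -/

namespace Pool.Agent.MP_1246c0_nt.H12

open NumberField Finset Filter Topology
open Pool.Agent.MP_1246c0_nt.H55 (Fund kD)

namespace FIN

theorem log_mono {T X : ℕ} (h : T ≤ X) : Real.log T ≤ Real.log X := by
  rcases Nat.eq_zero_or_pos T with rfl | hT
  · simpa using Real.log_natCast_nonneg X
  · exact Real.log_le_log (by exact_mod_cast hT) (by exact_mod_cast h)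

theorem bil_mono {κ : Type} {b : ℕ → ℕ → κ → F2} {ok : ℕ → Prop} {Y T X : ℕ} {δ δ' : ℝ}
    (h : Bil b ok Y X δ) (hT : T ≤ X) (hδ : δ ≤ δ') : Bil b ok Y T δ' := by
  intro s hs u v hu hv hu' hv' T' hT'
  exact (h s hs u v hu hv hu' hv' T' (hT'.trans hT)).trans
    (mul_le_mul_of_nonneg_right hδ (Nat.cast_nonneg _))

theorem dl_nonneg (C N Y T : ℕ) : 0 ≤ dl C N Y T := by
  unfold dl
  positivity

theorem dl_mono {C N N' Y T : ℕ} (hY : 1 ≤ Y) (hN : 1 ≤ N) (h : N ≤ N') :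
    dl C N Y T ≤ dl C N' Y T := by
  unfold dl
  have hY' : (1 : ℝ) ≤ Y := by exact_mod_cast hY
  have hN' : (1 : ℝ) ≤ N := by exact_mod_cast hN
  have h' : (N : ℝ) ≤ N' := by exact_mod_cast h
  have h1 : (Y : ℝ) ^ (1 / (16 * N') : ℝ) ≤ (Y : ℝ) ^ (1 / (16 * N) : ℝ) := by
    apply Real.rpow_le_rpow_of_exponent_le hY'
    apply one_div_le_one_div_of_le <;> linarith
  have h2 : (2 : ℝ) ^ (C * N ^ 5) ≤ 2 ^ (C * N' ^ 5) := by
    apply pow_le_pow_right₀ (by norm_num)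
    exact Nat.mul_le_mul_left _ (Nat.pow_le_pow_left h _)
  have h3 : (0 : ℝ) < (Y : ℝ) ^ (1 / (16 * N') : ℝ) := Real.rpow_pos_of_pos (by linarith) _
  apply div_le_div₀ (by positivity) _ h3 h1
  exact mul_le_mul_of_nonneg_right h2 (by positivity)

theorem EE_nonneg (N z m T : ℕ) : 0 ≤ EE N z m T := by
  unfold EE
  positivity

theorem EE_mono {N z z' m m' T X : ℕ} (hz : z ≤ z') (hm : m ≤ m') (hT : T ≤ X) :
    EE N z m T ≤ EE N z' m' X := by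
  unfold EE
  have h0 : 0 ≤ Real.log T := Real.log_natCast_nonneg T
  have h1 := log_mono hT
  have h2 : (2 * Real.log T + 8) ^ 2 ≤ (2 * Real.log X + 8) ^ 2 :=
    pow_le_pow_left₀ (by linarith) (by linarith) _
  have h3 : (2 : ℝ) ^ ((N + 1) * (2 * z + m + 4)) ≤ 2 ^ ((N + 1) * (2 * z' + m' + 4)) := by
    apply pow_le_pow_right₀ (by norm_num)
    exact Nat.mul_le_mul_left _ (by omega)
  have h4 : (1 : ℝ) ≤ (2 * Real.log X + 8) ^ 2 := one_le_pow₀ (by linarith)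
  have h5 : (1 : ℝ) ≤ 2 ^ ((N + 1) * (2 * z' + m' + 4)) := one_le_pow₀ (by norm_num)
  calc _ ≤ ((2 * Real.log X + 8) ^ 2 * 2 ^ ((N + 1) * (2 * z' + m' + 4))) ^ (m + 1) :=
        pow_le_pow_left₀ (by positivity) (mul_le_mul h2 h3 (by positivity) (by positivity)) _
    _ ≤ _ := pow_le_pow_right₀ (one_le_mul_of_one_le_of_one_le h4 h5) (by omega)

theorem mem_OP {X p : ℕ} (h : p ∈ OP X) : p.Prime ∧ p ≠ 2 := (mem_filter.1 h).2

theorem sum_div (X : ℕ) (S : Finset (Finset ℕ)) (hS : ∀ s ∈ S, ∀ p ∈ s, p.Prime) :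
    ∑ s ∈ S, ((X / ∏ p ∈ s, p : ℕ) : ℝ) ≤ X * (Real.log X + 2) := by
  classical
  have hinj : Set.InjOn (fun s : Finset ℕ => ∏ p ∈ s, p) S := by
    intro s hs t ht h
    have h1 := Nat.primeFactors_prod (hS s hs)
    have h2 := Nat.primeFactors_prod (hS t ht)
    rw [← h1, ← h2]
    exact congrArg Nat.primeFactors h
  rw [← sum_image (f := fun d : ℕ => ((X / d : ℕ) : ℝ)) hinj]
  have hsub : ∑ d ∈ S.image (fun s : Finset ℕ => ∏ p ∈ s, p), ((X / d : ℕ) : ℝ) ≤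
      ∑ d ∈ Icc 1 X, ((X / d : ℕ) : ℝ) := by
    rw [← sum_filter_ne_zero]
    apply sum_le_sum_of_subset_of_nonneg
    · intro d hd
      have h := (mem_filter.1 hd).2
      have h' : X / d ≠ 0 := by exact_mod_cast h
      rw [Ne, Nat.div_eq_zero_iff] at h'
      rw [mem_Icc]
      omega
    · intros
      positivity
  refine hsub.trans ?_
  have h2 : ∑ d ∈ Icc 1 X, ((X / d : ℕ) : ℝ) ≤ X * ((harmonic X : ℚ) : ℝ) := by
    rw [harmonic_eq_sum_Icc]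
    push_cast
    rw [mul_sum]
    apply sum_le_sum
    intro d _
    rw [← div_eq_mul_inv]
    exact Nat.cast_div_le
  refine h2.trans (mul_le_mul_of_nonneg_left ?_ (Nat.cast_nonneg _))
  have := harmonic_le_one_add_log X
  linarith

theorem rp_le_one {p : ℕ} (hp : 1 ≤ p) {s : ℝ} (hs : 0 ≤ s) : (p : ℝ) ^ (-s) ≤ 1 :=
  Real.rpow_le_one_of_one_le_of_nonpos (by exact_mod_cast hp) (by linarith)

theorem rp_mono {p : ℕ} (hp : 1 ≤ p) {s t : ℝ} (hs : s ≤ t) : (p : ℝ) ^ (-t) ≤ (p : ℝ) ^ (-s) :=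
  Real.rpow_le_rpow_of_exponent_le (by exact_mod_cast hp) (by linarith)

theorem wts {X j0 p : ℕ} (hp : 1 ≤ p) (h1 : 0 < s1 X) (h2 : s1 X ≤ s2 X) :
    0 ≤ ws X j0 p ∧ 0 ≤ wb X p ∧ ws X j0 p + wb X p ≤ 1 := by
  have a1 := rp_le_one hp h1.le
  have a2 := rp_mono hp h2
  have a3 : (0 : ℝ) ≤ (p : ℝ) ^ (-s2 X) := by positivity
  unfold ws wb
  split_ifs <;> refine ⟨?_, ?_, ?_⟩ <;> linarith

theorem wt_b {X : ℕ} (Sg : Finset ℕ) (h1 : 0 < s1 X) (h2 : s1 X ≤ s2 X) :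
    Wt Sg (YY X) (wr Sg (wb X)) := by
  intro p
  unfold wr
  split_ifs with h
  · obtain ⟨a, b, c⟩ := wts (j0 := 0) h.1.one_le h1 h2
    refine ⟨b, by linarith, fun hne => ⟨⟨h.1, h.2.1, Nat.zero_le _⟩, ?_, h.2.2⟩⟩
    by_contra hc
    exact hne (by unfold wb; rw [if_neg hc])
  · exact ⟨le_rfl, zero_le_one, fun h => absurd rfl h⟩

theorem wt_P {X : ℕ} (Sg : Finset ℕ) (hY : YY X ^ 2 ≤ X) :
    Wt Sg (YY X) (wr Sg (wP X)) ∧ ∀ P, wr Sg (wP X) P ≠ 0 → P % 8 = 5 := by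
  constructor
  · intro p
    unfold wr wP
    split_ifs with h h'
    · refine ⟨zero_le_one, le_rfl, fun _ => ⟨⟨h.1, h.2.1, Nat.zero_le _⟩, ?_, h.2.2⟩⟩
      exact lt_of_pow_lt_pow_left₀ 2 (Nat.zero_le _) (hY.trans_lt h'.2)
    · exact ⟨le_rfl, zero_le_one, fun h => absurd rfl h⟩
    · exact ⟨le_rfl, zero_le_one, fun h => absurd rfl h⟩
  · intro p
    unfold wr wP
    split_ifs with h h'
    · exact fun _ => h'.1
    · exact fun h => absurd rfl h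
    · exact fun h => absurd rfl h

/-- summing an inequality over all configurations -/
theorem cs_le (X z m0 : ℕ) (a b : ℕ → ℝ) (c E : ℝ)
    (Ψ Ψ' : ∀ (Sg : Finset ℕ) (m : ℕ), (Fin m → ℕ) → ℕ → ℝ) (hE : 0 ≤ E)
    (ha : ∀ p ∈ OP X, 0 ≤ a p ∧ a p ≤ 1)
    (h : ∀ Sg ⊆ OP X, Sg.card ≤ z → ∀ m ≤ m0,
      c * TS m (X / ∏ p ∈ Sg, p) (wr Sg b) (wr Sg (wP X)) (Ψ Sg m) - E * (X / ∏ p ∈ Sg, p : ℕ) ≤
        TS m (X / ∏ p ∈ Sg, p) (wr Sg b) (wr Sg (wP X)) (Ψ' Sg m)) :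
    c * CS X z m0 a b Ψ - E * (m0 + 1) * (X * (Real.log X + 2)) ≤ CS X z m0 a b Ψ' := by
  unfold CS
  set S := (OP X).powerset.filter fun Sg => Sg.card ≤ z with hS
  have hsum := sum_div X S fun s hs p hp => (mem_OP (mem_powerset.1 (mem_filter.1 hs).1 hp)).1
  have key : ∀ Sg ∈ S, c * ((∏ p ∈ Sg, a p) * ∑ m ∈ range (m0 + 1), 1 / (m.factorial : ℝ) *
        TS m (X / ∏ p ∈ Sg, p) (wr Sg b) (wr Sg (wP X)) (Ψ Sg m)) -
        E * (m0 + 1) * ((X / ∏ p ∈ Sg, p : ℕ) : ℝ) ≤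
      (∏ p ∈ Sg, a p) * ∑ m ∈ range (m0 + 1), 1 / (m.factorial : ℝ) *
        TS m (X / ∏ p ∈ Sg, p) (wr Sg b) (wr Sg (wP X)) (Ψ' Sg m) := by
    intro Sg hSg
    have hsub := mem_powerset.1 (mem_filter.1 hSg).1
    have hcard := (mem_filter.1 hSg).2
    have p0 : 0 ≤ ∏ p ∈ Sg, a p := prod_nonneg fun p hp => (ha p (hsub hp)).1
    have p1 : ∏ p ∈ Sg, a p ≤ 1 :=
      prod_le_one (fun p hp => (ha p (hsub hp)).1) fun p hp => (ha p (hsub hp)).2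
    set T : ℕ := X / ∏ p ∈ Sg, p with hT
    have hET : 0 ≤ E * (T : ℝ) := by positivity
    have e1 : E * (m0 + 1) * (T : ℝ) = ∑ _m ∈ range (m0 + 1), E * (T : ℝ) := by
      rw [sum_const, card_range, nsmul_eq_mul]
      push_cast
      ring
    rw [e1, mul_sum, mul_sum, mul_sum, ← sum_sub_distrib]
    apply sum_le_sum
    intro m hm
    have hm' := h Sg hsub hcard m (Nat.lt_succ_iff.1 (mem_range.1 hm))
    have f1 : (1 : ℝ) ≤ m.factorial := by exact_mod_cast m.factorial_pos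
    have f2 : 0 ≤ 1 / (m.factorial : ℝ) := by positivity
    have f3 : 1 / (m.factorial : ℝ) ≤ 1 := by
      rw [div_le_one (by linarith)]
      exact f1
    have q0 : 0 ≤ (∏ p ∈ Sg, a p) * (1 / (m.factorial : ℝ)) := mul_nonneg p0 f2
    have q1 : (∏ p ∈ Sg, a p) * (1 / (m.factorial : ℝ)) ≤ 1 := mul_le_one₀ p1 f2 f3
    have q2 := mul_le_mul_of_nonneg_left hm' q0
    have q3 := mul_le_mul_of_nonneg_right q1 hET
    nlinarith
  have hs := sum_le_sum key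
  rw [sum_sub_distrib, ← mul_sum, ← mul_sum] at hs
  have := mul_le_mul_of_nonneg_left hsum (show 0 ≤ E * (m0 + 1) by positivity)
  linarith

theorem card_fund (X : ℕ) : (Set.ncard {D : ℕ | D ≤ X ∧ Fund D} : ℝ) ≤ X := by
  have h : {D : ℕ | D ≤ X ∧ Fund D} ⊆ (Icc 1 X : Finset ℕ) := by
    intro D hD
    rw [mem_coe, mem_Icc]
    exact ⟨hD.2.1.le, hD.1⟩
  have := Set.ncard_le_ncard h (Finset.finite_toSet _)
  rw [Set.ncard_coe_finset, Nat.card_Icc] at this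
  exact_mod_cast this

theorem card_good (X : ℕ) :
    ({d : ℕ | d ≤ X ∧ Squarefree d ∧ (d % 8 = 5 ∧ Green2 (kD d))}.ncard : ℝ) ≤
      (Set.ncard {D : ℕ | D ≤ X ∧ Fund D ∧ D % 8 = 5 ∧ Green2 (kD D)} : ℝ) := by
  have hf : {D : ℕ | D ≤ X ∧ Fund D ∧ D % 8 = 5 ∧ Green2 (kD D)}.Finite :=
    (Set.finite_le_nat X).subset fun D hD => hD.1
  have h : {d : ℕ | d ≤ X ∧ Squarefree d ∧ (d % 8 = 5 ∧ Green2 (kD d))} ⊆
      {D : ℕ | D ≤ X ∧ Fund D ∧ D % 8 = 5 ∧ Green2 (kD D)} := by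
    rintro d ⟨h1, h2, h3, h4⟩
    exact ⟨h1, ⟨by omega, Or.inl ⟨by omega, h2⟩⟩, h3, h4⟩
  exact_mod_cast Set.ncard_le_ncard h hf

end FIN

open FIN in
theorem fin5 : SPRM → SBIL → SF1 → SF2 → SF3 → SASY →
    ∃ c : ℝ, 0 < c ∧ ∃ X₀ : ℕ, ∀ X : ℕ, X₀ ≤ X →
      c * (Set.ncard {D : ℕ | D ≤ X ∧ Fund D} : ℝ) ≤
        (Set.ncard {D : ℕ | D ≤ X ∧ Fund D ∧ D % 8 = 5 ∧ Green2 (kD D)} : ℝ) := by
  intro hprm ⟨C, hbil⟩ ⟨A, j0, c, hj0, hc, hf1⟩ hf2 hf3 hasy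
  obtain ⟨c3, hc3, hf3⟩ := hf3 j0 hj0
  have hev := (hasy C j0).eventually (gt_mem_nhds (show (0 : ℝ) < c * c3 / 2 by positivity))
  obtain ⟨X₀, hX₀⟩ := eventually_atTop.1 ((hprm j0 (A + 1)).and (hf3.and hev))
  refine ⟨c * c3 / 2, by positivity, X₀, fun X hX => ?_⟩
  obtain ⟨⟨-, h1, h2, -, -, -, hA, -, -, -, -, -, -, -, hY2, hY1⟩, h3, h4⟩ := hX₀ X hX
  have hA' : A < tpX X j0 := by exact_mod_cast (by linarith : (A : ℝ) < tpX X j0)
  set tp := tpX X j0 with htp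
  set N := 2 ^ ((j0 + tp) / 5) with hN
  set z := xx tp j0 (tp / 2 + 1) with hz
  set δ := dl C N (YY X) X with hδ
  have hδ0 : 0 ≤ δ := dl_nonneg _ _ _ _
  have hw : ∀ p ∈ OP X, 0 ≤ ws X j0 p ∧ 0 ≤ wb X p ∧ ws X j0 p + wb X p ≤ 1 :=
    fun p hp => wts (mem_OP hp).1.one_le h1 h2
  have hE : 0 ≤ (2 * (tp : ℝ) + 1) * (δ * EE N z (mX X) X) := by
    have := EE_nonneg N z (mX X) X
    positivity
  have key := cs_le X z (mX X) (ws X j0) (wb X) c ((2 * (tp : ℝ) + 1) * (δ * EE N z (mX X) X))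
    (fun Sg m p P => ind (Nice (fun i => lev (prs Sg p i)) (fun i => eps (prs Sg p i)) (BB Sg m)
      (Sm0 (prs Sg p) P) tp j0))
    (fun Sg _ p P => ind ((P * ∏ i, prs Sg p i) % 8 = 5 ∧ Green2 (kD (P * ∏ i, prs Sg p i)))) hE
    (fun p hp => ⟨(hw p hp).1, by linarith [(hw p hp).2.1, (hw p hp).2.2]⟩) (by
      intro Sg hSg hcard m hm
      have hT : X / ∏ p ∈ Sg, p ≤ X := Nat.div_le_self _ _
      have h5 := hf1 tp Sg m (X / ∏ p ∈ Sg, p) (YY X) (wr Sg (wb X)) (wr Sg (wP X)) δ hA'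
        (fun l hl => ⟨(mem_OP (hSg hl)).1, (mem_OP (hSg hl)).2, Nat.zero_le _⟩) (wt_b Sg h1 h2)
        (wt_P Sg hY2).1 (wt_P Sg hY2).2 hδ0 fun n hn D => bil_mono (hbil n D (YY X) X hY1) hT
          (dl_mono hY1 Nat.one_le_two_pow (Nat.pow_le_pow_right (by norm_num) hn))
      have h6 : EE N Sg.card m (X / ∏ p ∈ Sg, p) ≤ EE N z (mX X) X := EE_mono hcard hm hT
      have h7 : (2 * (tp : ℝ) + 1) * (δ * ((X / ∏ p ∈ Sg, p : ℕ) : ℝ) *
          EE N Sg.card m (X / ∏ p ∈ Sg, p)) ≤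
          (2 * (tp : ℝ) + 1) * (δ * EE N z (mX X) X) * ((X / ∏ p ∈ Sg, p : ℕ) : ℝ) := by
        have := mul_le_mul_of_nonneg_left h6
          (show 0 ≤ (2 * (tp : ℝ) + 1) * (δ * ((X / ∏ p ∈ Sg, p : ℕ) : ℝ)) by positivity)
        linarith
      linarith)
  have h8 := hf2 X z (mX X) (ws X j0) (wb X) (fun d => d % 8 = 5 ∧ Green2 (kD d)) hw
  have h9 := card_good X
  have h10 := mul_le_mul_of_nonneg_left (card_fund X) (show 0 ≤ c * c3 / 2 by positivity)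
  have h11 := mul_le_mul_of_nonneg_left h3 hc.le
  have h12 := mul_le_mul_of_nonneg_right h4.le (Nat.cast_nonneg (α := ℝ) X)
  nlinarith

end Pool.Agent.MP_1246c0_nt.H12
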