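import Pool.Agent.MP_1246c0_nt.H12.AllRA
import Pool.Agent.MP_1246c0_nt.H12.FIN
import Pool.Agent.MP_1246c0_nt.H75.EQ
import Pool.Agent.MP_1246c0_nt.H22.LOG
import Pool.Agent.MP_1246c0_nt.H29.AMP
import Pool.Agent.MP_1246c0_nt.H34.F1
import Pool.Agent.MP_1246c0_nt.H62.UL
import Pool.Agent.MP_1246c0_nt.H57.SH1
import Pool.Agent.MP_1246c0_nt.H52.NA
import Pool.Agent.MP_1246c0_nt.H71.NB
import Pool.Agent.MP_1246c0_nt.H56.PC
import Pool.Agent.MP_1246c0_nt.H36.MASS
import Pool.Agent.MP_1246c0_nt.H92.DET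
import Pool.Agent.MP_1246c0_nt.H60.SH2
import Pool.Agent.MP_1246c0_nt.H44.BIL
import Pool.Agent.MP_1246c0_nt.H30.HYP
import Pool.Agent.MP_1246c0_nt.H14.PM
import Pool.Agent.MP_1246c0_nt.H37.RECT
import Pool.Agent.MP_1246c0_nt.H41.CHI
import Pool.Agent.MP_1246c0_nt.H33.PRM
import Pool.Agent.MP_1246c0_nt.H55N.TR
import Pool.Agent.MP_1246c0_nt.H81.NC
import Pool.Agent.MP_1246c0_nt.H68.MAIN
import Pool.Agent.MP_1246c0_nt.H35.CFG
import Pool.Agent.MP_1246c0_nt.H49.F2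
import Pool.Agent.MP_1246c0_nt.H87.F3
import Pool.Agent.MP_1246c0_nt.H79.ASY

/-! Assembly of the analytic part and of the theorem. -/

namespace Pool.Agent.MP_1246c0_nt.H12.All

theorem rect : SRECT := rowRECT rowAMP
theorem sh1 : SSH1 := rowSH1 rowCY dec qr dat
theorem sh2 : SSH2 := rowSH2 rowCY un qr dat
theorem bil : SBIL := rowBIL rect rowHYP sh1 sh2
theorem ul : SUL := rowUL rowAVG
theorem eq : SEQ := rowEQ rowAVG dec rowLAM qr dat sym ul
theorem mass : SMASS := rowMASS rowLOG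
theorem det : SDET := rowDET qr mass rowCHI
theorem na : SNA := rowNA rowPM
theorem tr : STR := rowTR mass rowPRM
theorem nb : SNB := rowNB dec mass det rowPRM tr
theorem nc : SNC := rowNC dec mass rowPRM tr
theorem main : SMAIN := rowMAIN rowPRM na nb nc
theorem cfg : SCFG := rowCFG qr
theorem f1 : SF1 := rowF1 rowAVG rowLAM qr dat sym crit rm0 rmn rowPAR eq cfg
theorem f2 : SF2 := rowF2 cfg
theorem f3 : SF3 := rowF3 rowPRM rowPC main cfg
theorem asy : SASY := rowASY rowPRM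

end Pool.Agent.MP_1246c0_nt.H12.All
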