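import Pool.Agent.MP_1246c0_nt.H74.AVG
import Pool.Agent.MP_1246c0_nt.H80.QF
import Pool.Agent.MP_1246c0_nt.H89.CR
import Pool.Agent.MP_1246c0_nt.R59.ROB
import Pool.Agent.MP_1246c0_nt.H63.ML
import Pool.Agent.MP_1246c0_nt.H13.NS
import Pool.Agent.MP_1246c0_nt.H46.MOM
import Pool.Agent.MP_1246c0_nt.H79.HP
import Pool.Agent.MP_1246c0_nt.H50.CH
import Pool.Agent.MP_1246c0_nt.H42.GD
import Pool.Agent.MP_1246c0_nt.H56.NG
import Pool.Agent.MP_1246c0_nt.H94.HD
import Pool.Agent.MP_1246c0_nt.H36.LD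
import Pool.Agent.MP_1246c0_nt.H73.LV
import Pool.Agent.MP_1246c0_nt.H81.IDC
import Pool.Agent.MP_1246c0_nt.H14.WIN
import Pool.Agent.MP_1246c0_nt.H1.MOD
import Pool.Agent.MP_1246c0_nt.H16.OK
import Pool.Agent.MP_1246c0_nt.H92.RM0
import Pool.Agent.MP_1246c0_nt.H84.RMN
import Pool.Agent.MP_1246c0_nt.S15.CY
import Pool.Agent.MP_1246c0_nt.H79.DEC
import Pool.Agent.MP_1246c0_nt.H93.UN
import Pool.Agent.MP_1246c0_nt.H73.ODD
import Pool.Agent.MP_1246c0_nt.H22.TW
import Pool.Agent.MP_1246c0_nt.H52.TP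
import Pool.Agent.MP_1246c0_nt.H63.AMB
import Pool.Agent.MP_1246c0_nt.H66.HERB
import Pool.Agent.MP_1246c0_nt.H80.CAP
import Pool.Agent.MP_1246c0_nt.H70.HN
import Pool.Agent.MP_1246c0_nt.H37.HALF
import Pool.Agent.MP_1246c0_nt.H97.SIGN
import Pool.Agent.MP_1246c0_nt.H87.EIG
import Pool.Agent.MP_1246c0_nt.H98.BND
import Pool.Agent.MP_1246c0_nt.R59.BR
import Pool.Agent.MP_1246c0_nt.H60.GR
import Pool.Agent.MP_1246c0_nt.H29.LAM
import Pool.Agent.MP_1246c0_nt.H84.QR
import Pool.Agent.MP_1246c0_nt.H83.RA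
import Pool.Agent.MP_1246c0_nt.H20.RB
import Pool.Agent.MP_1246c0_nt.H62.RC
import Pool.Agent.MP_1246c0_nt.H9.RD
import Pool.Agent.MP_1246c0_nt.H56.RE
import Pool.Agent.MP_1246c0_nt.H14.RF
import Pool.Agent.MP_1246c0_nt.H95.DAT
import Pool.Agent.MP_1246c0_nt.H94.SYM
import Pool.Agent.MP_1246c0_nt.H35.V1
import Pool.Agent.MP_1246c0_nt.H92.V2
import Pool.Agent.MP_1246c0_nt.H34.SOL
import Pool.Agent.MP_1246c0_nt.H48.CRIT

/-! Assembly of the random matrix part and of the algebraic part. -/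

namespace Pool.Agent.MP_1246c0_nt.H12.All

theorem cr : SCR := rowCR rowAVG rowQF
theorem rob : SROB := rowROB rowAVG rowQF
theorem ml : SML := rowML rowQF
theorem ns : SNS := rowNS rowAVG rowQF cr
theorem mom : SMOM := rowMOM rowAVG rowQF cr rob ml ns
theorem hp : SHP := rowHP rowAVG rowQF
theorem ch : SCH := rowCH rowQF
theorem gd : SGD := rowGD rowAVG rowQF hp ch
theorem ng : SNG := rowNG rowAVG rowQF hp ch
theorem hd : SHD := rowHD rowAVG gd ng
theorem ld : SLD := rowLD rowAVG mom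
theorem lv : SLV := rowLV rowAVG hd ld
theorem win : SWIN := rowWIN rowQF
theorem md : SMOD := rowMOD rowAVG mom rowIDC win
theorem rm0 : SRM0 := rowRM0 rowAVG ld lv rowOK
theorem rmn : SRMN := rowRMN rowAVG md rowOK

theorem dec : SDEC := rowDEC rowCY
theorem un : SUN := rowUN rowCY
theorem odd : SODD := rowODD rowCY un
theorem tw : STW := rowTW rowCY dec
theorem tp : STP := rowTP rowCY dec tw
theorem amb : SAMB := rowAMB rowCY odd tw tp
theorem herb : SHERB := rowHERB rowCY un tw tp amb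
theorem cap : SCAP := rowCAP tw tp amb herb
theorem hn : SHN := rowHN rowCY dec tw tp
theorem half : SHALF := rowHALF tw tp amb hn
theorem qr : SQR := rowQR dec
theorem sign : SSIGN := rowSIGN qr tw tp
theorem br : SBR := rowBR rowCY tw tp
theorem gr : SGR := rowGR tw tp amb cap rowBND br
theorem rb : SRB := rowRB rowRA
theorem rc : SRC := rowRC qr rowRA
theorem rd : SRD := rowRD rowCY rowRA rb rc
theorem re : SRE := rowRE rowCY un rowRA rd
theorem dat : SDAT := rowDAT rowCY dec un odd qr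
theorem rf : SRF := rowRF rowCY dec un qr rowRA re dat
theorem sym : SSYM := rowSYM rowLAM rf dat
theorem v1 : SV1 := rowV1 qr rowLAM
theorem v2 : SV2 := rowV2 qr rowLAM
theorem sol : SSOL := rowSOL qr rowLAM tw tp amb cap hn half sign rowEIG dat
theorem crit : SCRIT := rowCRIT qr gr sol dat sym v1 v2

end Pool.Agent.MP_1246c0_nt.H12.All
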