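import Pool.Agent.MP_1246c0_nt.H55.Defs

/-! Boundedness of the `2`-class numbers in the cyclotomic tower. -/

namespace Pool.Agent.MP_1246c0_nt.H12

open NumberField

/-- The exponent of `2` in the class number of `k K_n` is bounded over `n ≥ 1`, where `K_n` is the
real subfield of degree `2 ^ n` of `ℚ(ζ)`, `ζ` a primitive root of unity of order `2 ^ (n + 2)`. -/
def Green2 (k : IntermediateField ℚ ℂ) : Prop :=
  ∃ B : ℕ, ∀ n : ℕ, 1 ≤ n → ∀ ζ : ℂ, IsPrimitiveRoot ζ (2 ^ (n + 2)) →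
    ∀ K : IntermediateField ℚ ℂ, K ≤ IntermediateField.adjoin ℚ {ζ} →
      Module.finrank ℚ K = 2 ^ n → (∀ x ∈ K, x.im = 0) →
      padicValNat 2 (Nat.card (ClassGroup (RingOfIntegers ↥(k ⊔ K)))) ≤ B

end Pool.Agent.MP_1246c0_nt.H12
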