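import Mathlib

/-! Random matrices with a hermitian type symmetry: definitions and statements of the pieces. -/

namespace Pool.Agent.MP_1246c0_nt.H12

open Polynomial Finset Matrix

abbrev F2 : Type := ZMod 2

open Classical in
/-- indicator -/
noncomputable def ind (p : Prop) : ℝ := if p then 1 else 0

/-- sign -/
def sg (x : F2) : ℝ := if x = 0 then 1 else -1

/-- average over a subgroup -/
noncomputable def Ex {M : Type} [AddCommGroup M] (A : AddSubgroup M) (f : M → ℝ) : ℝ :=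
  (∑ᶠ h : A, f h) / Nat.card A

/-- a local ring of characteristic two with an involution -/
structure LR {Λ : Type} [CommRing Λ] (st : Λ →+* Λ) (au : Λ →+* F2) (τ : Λ) (N : ℕ) : Prop where
  two : (2 : Λ) = 0
  inv : ∀ h, st (st h) = h
  aust : ∀ h, au (st h) = au h
  nrm : ∀ h, ∃ k, st h * h = ((au h).val : Λ) + k + st k
  ker : ∀ h, au h = 0 ↔ τ ∣ h
  nil : τ ^ N = 0

section Gen

variable {Λ ι G : Type} [CommRing Λ] [Fintype ι] [DecidableEq ι] [AddCommGroup G] [Module Λ G]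

/-- hermitian matrices on `B` with diagonal in the prime ring, zero off the pairs meeting `F` -/
def Hs (st : Λ →+* Λ) (B F : Finset ι) : AddSubgroup (Matrix ι ι Λ) where
  carrier := {H | (∀ l l', H l' l = st (H l l')) ∧ (∀ l, ∃ n : ℤ, H l l = n) ∧
    ∀ l l', ¬(l ∈ B ∧ l' ∈ B ∧ (l ∈ F ∨ l' ∈ F)) → H l l' = 0}
  zero_mem' := ⟨by simp, fun _ => ⟨0, by simp⟩, fun _ _ _ => rfl⟩
  add_mem' := fun {a b} ⟨h1, h2, h3⟩ ⟨k1, k2, k3⟩ => ⟨fun l l' => by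
      rw [Matrix.add_apply, Matrix.add_apply, map_add, ← h1, ← k1],
    fun l => by
      obtain ⟨n, hn⟩ := h2 l
      obtain ⟨m, hm⟩ := k2 l
      exact ⟨n + m, by rw [Matrix.add_apply, hn, hm, Int.cast_add]⟩,
    fun l l' h => by rw [Matrix.add_apply, h3 l l' h, k3 l l' h, add_zero]⟩
  neg_mem' := fun {a} ⟨h1, h2, h3⟩ => ⟨fun l l' => by
      rw [Matrix.neg_apply, Matrix.neg_apply, map_neg, ← h1],
    fun l => by
      obtain ⟨n, hn⟩ := h2 l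
      exact ⟨-n, by rw [Matrix.neg_apply, hn, Int.cast_neg]⟩,
    fun l l' h => by rw [Matrix.neg_apply, h3 l l' h, neg_zero]⟩

/-- the vector the matrix is applied to -/
def xv (P : Finset ι) (b : Bool) (u : Module.End Λ G) (g : ι → G) (l : ι) : G :=
  if l ∈ P ∧ b = true then u (g l) else g l

/-- the right side of the system -/
def rv (P : Finset ι) (o : Λ) (b : Bool) (u : Module.End Λ G) (g : ι → G) (l : ι) : G :=
  if l ∈ P then
    (if b = true then g l + o • ∑ l' ∈ P, xv P b u g l' else u (g l + o • ∑ l' ∈ P, xv P b u g l'))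
  else 0

/-- the matrix applied to a vector of elements of a module -/
def ap (S : Matrix ι ι Λ) (x : ι → G) (l : ι) : G := ∑ l', S l l' • x l'

/-- solutions of the system -/
def Sol (S : Matrix ι ι Λ) (c : ι → Λ) (P : Finset ι) (o : Λ) (b : Bool) (u : Module.End Λ G)
    (g : ι → G) : Prop :=
  (∀ l, ap S (xv P b u g) l = rv P o b u g l) ∧ ∑ l, c l • xv P b u g l = 0

/-- the family generates the module together with `u` -/
def Gen (u : Module.End Λ G) (g : ι → G) : Prop :=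
  ∀ W : Submodule Λ G, (∀ w ∈ W, u w ∈ W) → (∀ l, g l ∈ W) → W = ⊤

/-- the number of generating solutions -/
noncomputable def Sur (S : Matrix ι ι Λ) (c : ι → Λ) (P : Finset ι) (o : Λ) (b : Bool)
    (u : Module.End Λ G) : ℕ :=
  Nat.card {g : ι → G // Sol S c P o b u g ∧ Gen u g}

/-- the symmetry of the matrix on `B` -/
def Sym (st : Λ →+* Λ) (au : Λ →+* F2) (S : Matrix ι ι Λ) (c : ι → Λ) (B : Finset ι) : Prop :=
  ∀ l ∈ B, ∀ l' ∈ B,
    S l l' + st (S l' l) = st (c l) * c l' + if l = l' then ((au (c l)).val : Λ) else 0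

/-- the standing hypotheses: `B` big indices, `P` pencil indices, `J` a large class -/
structure Ok (st : Λ →+* Λ) (au : Λ →+* F2) (S : Matrix ι ι Λ) (c : ι → Λ) (B P J : Finset ι)
    (b : Bool) (m z : ℕ) : Prop where
  sym : Sym st au S c B
  row : ∀ (w : ι → F2) (w0 : F2), (∀ l ∈ B, w l = 0) →
    (∀ l' ∈ B, l' ∉ P → ∑ l, w l * au (S l l') + w0 * au (c l') = 0) → w = 0 ∧ w0 = 0
  col : ∀ w : ι → F2, (∀ l ∈ B, w l = 0) →
    (∀ l ∈ B, l ∉ P → ∑ l', au (S l l') * w l' = 0) → w = 0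
  sub : J ⊆ B
  typ : ∀ l ∈ J, l ∈ P ↔ b = false
  cnt : ∀ ε : F2, m ≤ (J.filter fun l => au (c l) = ε).card
  pen : m ≤ (P ∩ B).card
  sml : Bᶜ.card ≤ z

/-- the hypotheses on the fresh indices `F` and the frozen block `T` -/
structure Fr (au : Λ →+* F2) (S : Matrix ι ι Λ) (c : ι → Λ) (B F P T J : Finset ι) (b : Bool) :
    Prop where
  jf : J ⊆ F
  pf : P ∩ B ⊆ F
  fb : F ⊆ B
  all : b = true → F = B
  bt : B \ F ⊆ T
  tp : Disjoint T P
  tf : Disjoint T F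
  inj : ∀ y : ι → F2, (∀ l, l ∉ T → y l = 0) → (∀ l ∈ T, ∑ l', au (S l l') * y l' = 0) →
    ∑ l, au (c l) * y l = 0 → y = 0

variable (G) in
/-- invariant alternating forms -/
def Alt (st : Λ →+* Λ) : AddSubgroup (G →+ G →+ F2) where
  carrier := {β | (∀ (h : Λ) v w, β (h • v) w = β v (st h • w)) ∧ ∀ v, β v v = 0}
  zero_mem' := ⟨fun _ _ _ => rfl, fun _ => rfl⟩
  add_mem' := fun {a b} ⟨h1, h2⟩ ⟨k1, k2⟩ =>
    ⟨fun h v w => by simp [h1 h v w, k1 h v w], fun v => by simp [h2 v, k2 v]⟩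
  neg_mem' := fun {a} ⟨h1, h2⟩ => ⟨fun h v w => by simp [h1 h v w], fun v => by simp [h2 v]⟩

/-- the span of the members with index in `J` -/
def sp (Λ : Type) [CommRing Λ] [Module Λ G] (x : ι → G) (J : Finset ι) : Submodule Λ G :=
  Submodule.span Λ (x '' (J : Set ι))

/-- failure of higher order -/
def BadM (au : Λ →+* F2) (τ : Λ) (N f : ℕ) (S : Matrix ι ι Λ) (c : ι → Λ) (P : Finset ι)
    (b : Bool) : Prop :=
  ∃ (G : Type) (_ : AddCommGroup G) (_ : Module Λ G) (_ : Finite G) (u : Module.End Λ G)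
    (p : Λ[X]), p.Monic ∧ p.natDegree ≤ f ∧ Irreducible (p.map au) ∧ IsNilpotent (aeval u p) ∧
    ∃ g : ι → G, Sol S c P 0 b u g ∧ ∃ l, τ ^ (N - 1) • g l ≠ 0

end Gen

/-- the error term of the moment estimate -/
noncomputable def Er (γ z m : ℕ) : ℝ := 2 ^ (5 * (γ + 1) * (γ + z + 2)) / 2 ^ (m / 3)

section One

variable {ι : Type} [Fintype ι] [DecidableEq ι]

/-- the identity of the field with two elements -/
abbrev i2 : F2 →+* F2 := RingHom.id F2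

/-- a nonzero solution over the field defined by `p` -/
def Hit (S : Matrix ι ι F2) (e : ι → F2) (P : Finset ι) (o : F2) (p : F2[X]) : Prop :=
  ∃ g : ι → AdjoinRoot p, g ≠ 0 ∧ Sol S e P o false (LinearMap.mulLeft F2 (AdjoinRoot.root p)) g

/-- failure of first order, in degree at least `f` -/
def Bad1 (S : Matrix ι ι F2) (e : ι → F2) (P : Finset ι) (o : F2) (f : ℕ) : Prop :=
  ∃ p : F2[X], Irreducible p ∧ f ≤ p.natDegree ∧ Hit S e P o p

/-- the pencil operator -/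
def pt (P : Finset ι) (o : F2) (y : ι → F2) (l : ι) : F2 :=
  if l ∈ P then y l + o * ∑ l' ∈ P, y l' else 0

/-- the restrictions to `F` are linearly independent -/
def Idp {k : ℕ} (F : Finset ι) (y : Fin k → ι → F2) : Prop :=
  ∀ a : Fin k → F2, (∀ l ∈ F, ∑ i, a i * y i l = 0) → a = 0

/-- scalar product over `B` -/
def dot (B : Finset ι) (y v : ι → F2) : F2 := ∑ l ∈ B, y l * v l

/-- the number of vectors off `P` in the kernel of the block off `P` -/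
noncomputable def Kr (S : Matrix ι ι F2) (e : ι → F2) (P : Finset ι) : ℕ :=
  Nat.card {y : ι → F2 // (∀ l ∈ P, y l = 0) ∧ (∀ l, l ∉ P → (S *ᵥ y) l = 0) ∧ dot univ e y = 0}

/-- the values prescribed by a chain -/
def vv {k : ℕ} (S : Matrix ι ι F2) (P : Finset ι) (o : F2) (y : Fin (k + 1) → ι → F2) (j : Fin k) :
    ι → F2 := pt P o (y j.succ) - S *ᵥ y j.castSucc

/-- the conditions on a chain that do not involve the random part -/
def Cn {k : ℕ} (S : Matrix ι ι F2) (e : ι → F2) (B P : Finset ι) (o : F2)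
    (y : Fin (k + 1) → ι → F2) : Prop :=
  (∀ j, dot univ e (y j) = 0) ∧ (∀ j l, l ∉ B → vv S P o y j l = 0) ∧
    ∀ i j : Fin k, dot B (y i.castSucc) (vv S P o y j) = dot B (y j.castSucc) (vv S P o y i)

/-- the next member of a closed chain -/
def nxt {f : ℕ} (y : Fin f → ι → F2) (a : Fin f → F2) (j : Fin f) : ι → F2 :=
  if h : j.val + 1 < f then y ⟨j.val + 1, h⟩ else ∑ i, a i • y i

/-- the number of closed independent chains -/
noncomputable def GT (S : Matrix ι ι F2) (e : ι → F2) (F P : Finset ι) (o : F2) (f : ℕ) : ℕ :=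
  Nat.card {q : (Fin f → ι → F2) × (Fin f → F2) // Idp F q.1 ∧ (∀ j, dot univ e (q.1 j) = 0) ∧
    ∀ j, S *ᵥ q.1 j = pt P o (nxt q.1 q.2 j)}

/-- a chain that starts off `F` -/
def NG (S : Matrix ι ι F2) (e : ι → F2) (F P : Finset ι) (o : F2) : Prop :=
  ∃ y : ℕ → ι → F2, y 0 ≠ 0 ∧ (∀ l ∈ F, y 0 l = 0) ∧
    ∀ j, S *ᵥ y j = pt P o (y (j + 1)) ∧ dot univ e (y j) = 0

/-- distance from the top -/
def jj (tp j0 a : ℕ) : ℕ := j0 + tp - a

/-- the size parameter of a level -/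
def xx (tp j0 a : ℕ) : ℕ := 2 ^ (jj tp j0 a / 5)

/-- the layer used for a level -/
def nn (tp j0 a : ℕ) : ℕ := min (a - 3) (jj tp j0 a / 5)

/-- good configurations -/
structure Nice (lv : ι → ℕ) (e : ι → F2) (B : Finset ι) (S : Matrix ι ι F2) (tp j0 : ℕ) :
    Prop where
  cross : ∀ l ∈ B, ∀ l', l' ∉ B → e l = 0 → S l' l = S l l'
  top : ∃ q ∈ B, tp < lv q ∧ e q = 1 ∧ ∀ l, tp < lv l → l = q
  cnt : ∀ a ≤ tp, ∀ ε : F2, 2 ^ jj tp j0 a ≤ (B.filter fun l => lv l = a ∧ e l = ε).card ∧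
    (B.filter fun l => lv l = a ∧ e l = ε).card ≤ 2 ^ (2 * jj tp j0 a)
  low : ∀ l, l ∉ B → lv l ≤ tp / 2
  sml : Bᶜ.card ≤ xx tp j0 (tp / 2 + 1)
  det : ∀ w : ι → F2, (∀ l ∈ B, w l = 0) → w ≠ 0 →
    ∃ l ∈ B, tp / 2 < lv l ∧ e l = 0 ∧ ∑ l', S l l' * w l' = 1
  ev : Even (univ.filter fun l => lv l = 0).card
  es : ∑ l, e l = 0

/-- failure of first order at level `a` -/
def BadL (lv : ι → ℕ) (e : ι → F2) (S : Matrix ι ι F2) (a f : ℕ) : Prop :=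
  Bad1 (ι := {l // a ≤ lv l}) (S.submatrix Subtype.val Subtype.val) (fun l => e l.1)
    (univ.filter fun l => lv l.1 = a) (if a = 0 then 1 else 0) f

/-- failure of higher order with pencil at level `a` -/
def BadN {Λ : Type} [CommRing Λ] (au : Λ →+* F2) (τ : Λ) (N f : ℕ) (lv : ι → ℕ) (c : ι → Λ)
    (S : Matrix ι ι Λ) (a : ℕ) (b : Bool) : Prop :=
  BadM (ι := {l // a ≤ lv l}) au τ N f (S.submatrix Subtype.val Subtype.val) (fun l => c l.1)
    (univ.filter fun l => lv l.1 = a) b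

/-- no failure of first order up to level `A`, none of large degree above -/
def G1 (lv : ι → ℕ) (e : ι → F2) (S : Matrix ι ι F2) (A tp j0 : ℕ) : Prop :=
  (∀ a ≤ A, ¬BadL lv e S a 1) ∧ ∀ a ∈ Ioc A tp, ¬BadL lv e S a (2 ^ nn tp j0 a + 1)

end One

/-! ### Statements -/

/-- averages -/
structure SAVG : Prop where
  mono : ∀ (M : Type) [AddCommGroup M] [Finite M] (A : AddSubgroup M) (f g : M → ℝ),
    (∀ h ∈ A, f h ≤ g h) → Ex A f ≤ Ex A g
  const : ∀ (M : Type) [AddCommGroup M] [Finite M] (A : AddSubgroup M) (c : ℝ),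
    Ex A (fun _ => c) = c
  add : ∀ (M : Type) [AddCommGroup M] [Finite M] (A : AddSubgroup M) (f g : M → ℝ),
    Ex A (fun h => f h + g h) = Ex A f + Ex A g
  mul : ∀ (M : Type) [AddCommGroup M] (A : AddSubgroup M) (c : ℝ) (f : M → ℝ),
    Ex A (fun h => c * f h) = c * Ex A f
  sum : ∀ (M κ : Type) [AddCommGroup M] [Finite M] (A : AddSubgroup M) (s : Finset κ)
    (f : κ → M → ℝ), Ex A (fun h => ∑ i ∈ s, f i h) = ∑ i ∈ s, Ex A (f i)
  sub : ∀ (M : Type) [AddCommGroup M] [Finite M] (A A' : AddSubgroup M) (f : M → ℝ), A' ≤ A →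
    Ex A f = Ex A fun h => Ex A' fun h' => f (h + h')
  map : ∀ (M M' : Type) [AddCommGroup M] [Finite M] [AddCommGroup M'] (φ : M →+ M')
    (A : AddSubgroup M) (f : M' → ℝ), Ex A (fun h => f (φ h)) = Ex (A.map φ) f
  fib : ∀ (M M' : Type) [AddCommGroup M] [Finite M] [AddCommGroup M'] (φ : M →+ M')
    (A : AddSubgroup M) (v : M'),
    Ex A (fun h => ind (φ h = v)) = ind (v ∈ A.map φ) / Nat.card (A.map φ)
  cnt : ∀ (M κ : Type) [AddCommGroup M] [Finite M] [Fintype κ] (A : AddSubgroup M)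
    (p : M → κ → Prop),
    Ex A (fun h => Nat.card {x // p h x}) = ∑ x, Ex A fun h => ind (p h x)
  res : ∀ (Λ ι ι' : Type) [CommRing Λ] [Finite Λ] [Fintype ι] [DecidableEq ι] [Fintype ι']
    [DecidableEq ι'] (st : Λ →+* Λ) (B F : Finset ι) (f : ι' → ι) (Φ : Matrix ι' ι' Λ → ℝ),
    f.Injective → Ex (Hs st B F) (fun H => Φ (H.submatrix f f)) =
      Ex (Hs st (univ.filter fun l => f l ∈ B) (univ.filter fun l => f l ∈ F)) Φ

/-- characters, quadratic functions, socles -/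
structure SQF : Prop where
  qc : ∀ (A C : Type) [Finite A] [AddCommGroup C] [Finite C] (Q : C →+ A → F2) (δ : ℝ), 0 ≤ δ →
    (∀ μ, μ ≠ 0 → |∑ᶠ x, sg (Q μ x)| ≤ δ * Nat.card A) →
    |(Nat.card {x // ∀ μ, Q μ x = 0} : ℝ) - Nat.card A / Nat.card C| ≤ δ * Nat.card A
  lin : ∀ (A : Type) [AddCommGroup A] [Finite A] (Q : A → F2) (v : A), (∀ x, Q (x + v) = Q x + 1) →
    ∑ᶠ x, sg (Q x) = 0
  qb : ∀ (G ι V : Type) [AddCommGroup G] [Finite G] [Fintype ι] [DecidableEq ι] [AddCommGroup V]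
    [Finite V] (J : Finset ι) (Q : (ι → G) → F2) (π : G →+ G →+ F2)
    (ρ : (ι → G) →+ (ι → G) →+ F2) (L : (ι → G) →+ V), π ≠ 0 →
    (∀ x x', (∀ l, l ∉ J → x l = 0) → (∀ l, l ∉ J → x' l = 0) → L x = 0 → ρ x x' = 0) →
    (∀ x0 x x', (∀ l, l ∉ J → x l = 0) → (∀ l, l ∉ J → x' l = 0) →
      Q (x0 + x + x') + Q (x0 + x) + Q (x0 + x') + Q x0 = ∑ l ∈ J, π (x l) (x' l) + ρ x x') →
    (∑ᶠ x, sg (Q x)) ^ 2 ≤ (Nat.card (ι → G) : ℝ) ^ 2 * Nat.card V / 2 ^ J.card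
  soc : ∀ (Λ G κ κ' : Type) [CommRing Λ] [AddCommGroup G] [Module Λ G] [Fintype κ]
    (st : Λ →+* Λ) (au : Λ →+* F2) (τ : Λ) (N : ℕ) (M : κ' → κ → Λ), LR st au τ N →
    (∀ y : κ → F2, (∀ i, ∑ j, au (M i j) * y j = 0) → y = 0) →
    ∀ x : κ → G, (∀ i, ∑ j, M i j • x j = 0) → x = 0
  dual : ∀ (G : Type) [AddCommGroup G] [Finite G], (∀ x : G, x + x = 0) →
    Nat.card (G →+ F2) = Nat.card G ∧ (∀ x : G, x ≠ 0 → ∃ μ : G →+ F2, μ x = 1) ∧
    ∀ W : AddSubgroup G,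
      Nat.card W * Nat.card {μ : G →+ F2 // ∀ w ∈ W, μ w = 0} = Nat.card G ∧
      ∀ x, (∀ μ : G →+ F2, (∀ w ∈ W, μ w = 0) → μ x = 0) → x ∈ W
  few : ∀ (Λ G ι : Type) [CommRing Λ] [AddCommGroup G] [Module Λ G] [Finite G] [DecidableEq ι]
    (γ : ℕ), Nat.card G = 2 ^ γ → Nat.card (Submodule Λ G) ≤ 2 ^ (γ * γ) ∧
    (∀ W W' : Submodule Λ G, W < W' → 2 * Nat.card W ≤ Nat.card W') ∧
    ∀ (x : ι → G) (J : Finset ι), ∃ L ⊆ J, L.card ≤ γ ∧ sp Λ x L = sp Λ x J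

/-- crude bound for the probability of a system -/
def SCR : Prop :=
  ∀ (Λ ι G : Type) [CommRing Λ] [Finite Λ] [Fintype ι] [DecidableEq ι] [AddCommGroup G]
    [Module Λ G] [Finite G] (st : Λ →+* Λ) (B F : Finset ι) (γ : ℕ) (x v : ι → G),
    (∀ h, st (st h) = h) → F ⊆ B → Nat.card G = 2 ^ γ →
    Ex (Hs st B F) (fun H => ind (∀ l ∈ B, ap H x l = v l)) ≤
      2 ^ (2 * γ * γ) / ((Nat.card (sp Λ x B) : ℝ) ^ F.card * (Nat.card (sp Λ x F) : ℝ) ^ (B \ F).card)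

/-- the probability of a system for a robustly spanning vector -/
def SROB : Prop :=
  ∀ (Λ ι G : Type) [CommRing Λ] [Finite Λ] [Fintype ι] [DecidableEq ι] [AddCommGroup G]
    [Module Λ G] [Finite G] (st : Λ →+* Λ) (au : Λ →+* F2) (τ : Λ) (N : ℕ)
    (B F J1 J2 J3 : Finset ι) (x v : ι → G), LR st au τ N → F ⊆ B → J1 ⊆ F → J2 ⊆ F → J3 ⊆ F →
    Disjoint J1 J2 → Disjoint J1 J3 → Disjoint J2 J3 → sp Λ x J1 = ⊤ → sp Λ x J2 = ⊤ →
    sp Λ x J3 = ⊤ →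
    Ex (Hs st B F) (fun H => ind (∀ l ∈ B, ap H x l = v l)) =
      ind (∀ β ∈ Alt G st, ∑ l ∈ B, β (x l) (v l) = 0) * Nat.card (Alt G st) /
        (Nat.card G : ℝ) ^ B.card

/-- the number of compatible vectors -/
def SML : Prop :=
  ∀ (Λ ι G : Type) [CommRing Λ] [Finite Λ] [Fintype ι] [DecidableEq ι] [AddCommGroup G]
    [Module Λ G] [Finite G] (st : Λ →+* Λ) (au : Λ →+* F2) (τ : Λ) (N : ℕ) (S : Matrix ι ι Λ)
    (c : ι → Λ) (B P J : Finset ι) (o : Λ) (b : Bool) (m z γ : ℕ) (u : Module.End Λ G),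
    LR st au τ N → Ok st au S c B P J b m z → Nat.card G = 2 ^ γ →
    Nat.card (Alt G st) ≤ 2 ^ (γ * γ) ∧
    |(Nat.card {g : ι → G //
        (∀ β ∈ Alt G st, ∑ l ∈ B, β (xv P b u g l) (rv P o b u g l - ap S (xv P b u g) l) = 0) ∧
        (∀ l, l ∉ B → ap S (xv P b u g) l = rv P o b u g l) ∧ ∑ l, c l • xv P b u g l = 0} : ℝ) *
        Nat.card (Alt G st) / (Nat.card G : ℝ) ^ B.card - 1 / 2 ^ γ| ≤
      2 ^ (γ * γ + γ * (z + 1)) / 2 ^ (m / 2)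

/-- solutions that do not span on the fresh indices -/
def SNS : Prop :=
  ∀ (Λ ι G : Type) [CommRing Λ] [Finite Λ] [Fintype ι] [DecidableEq ι] [AddCommGroup G]
    [Module Λ G] [Finite G] (st : Λ →+* Λ) (au : Λ →+* F2) (τ : Λ) (N : ℕ) (S : Matrix ι ι Λ)
    (c : ι → Λ) (B F P T J : Finset ι) (o : Λ) (b : Bool) (m z γ : ℕ) (u : Module.End Λ G),
    LR st au τ N → Ok st au S c B P J b m z → Fr au S c B F P T J b → Nat.card G = 2 ^ γ →
    Ex (Hs st B F) (fun H => Nat.card {g : ι → G //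
      (Sol (S + H) c P o b u g ∧ Gen u g) ∧ sp Λ (xv P b u g) F ≠ ⊤}) ≤
      2 ^ (4 * γ * γ + 2 * γ * z + γ + 1) / 2 ^ m

/-- the moment estimate -/
def SMOM : Prop :=
  ∀ (Λ ι G : Type) [CommRing Λ] [Finite Λ] [Fintype ι] [DecidableEq ι] [AddCommGroup G]
    [Module Λ G] [Finite G] (st : Λ →+* Λ) (au : Λ →+* F2) (τ : Λ) (N : ℕ) (S : Matrix ι ι Λ)
    (c : ι → Λ) (B F P T J : Finset ι) (o : Λ) (b : Bool) (m z γ : ℕ) (u : Module.End Λ G),
    LR st au τ N → Ok st au S c B P J b m z → Fr au S c B F P T J b → Nat.card G = 2 ^ γ →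
    |Ex (Hs st B F) (fun H => Sur (S + H) c P o b u) - 1 / 2 ^ γ| ≤ Er γ z m

/-- the probability of several systems over the field with two elements -/
structure SHP : Prop where
  one : ∀ (ι : Type) [Fintype ι] [DecidableEq ι] (B F : Finset ι) (k : ℕ) (y v : Fin k → ι → F2),
    F ⊆ B → Idp F y →
    Ex (Hs i2 B F) (fun H => ind (∀ i, ∀ l ∈ B, (H *ᵥ y i) l = v i l)) ≤
      ind (∀ i j, dot B (y i) (v j) = dot B (y j) (v i)) * 2 ^ (k * (k - 1) / 2) / 2 ^ (k * B.card)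
  two : ∀ (ι : Type) [Fintype ι] [DecidableEq ι] (B F : Finset ι) (k : ℕ) (y v : Fin k → ι → F2)
    (y0 v0 : ι → F2), F ⊆ B → Idp F y → (∀ l ∈ F, y0 l = 0) → (∃ l ∈ B, y0 l ≠ 0) →
    Ex (Hs i2 B F) (fun H =>
        ind ((∀ l ∈ B, (H *ᵥ y0) l = v0 l) ∧ ∀ i, ∀ l ∈ B, (H *ᵥ y i) l = v i l)) ≤
      ind ((∀ i j, dot B (y i) (v j) = dot B (y j) (v i)) ∧ ∀ i, dot B y0 (v i) = dot B (y i) v0) *
        2 ^ (k * (k + 1) / 2) / 2 ^ (F.card + k * B.card)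

/-- the number of short chains -/
def SCH : Prop :=
  ∀ (ι : Type) [Fintype ι] [DecidableEq ι] (S : Matrix ι ι F2) (e : ι → F2) (B P J : Finset ι)
    (o : F2) (m z k : ℕ) (I : Finset (Fin (k + 1))) (a : Fin (k + 1) → F2) (i0 : Fin (k + 1))
    (ℓ : Fin (k + 1) → (Fin (k + 1) → ι → F2) →+ F2), Ok i2 i2 S e B P J false m z →
    4 * (k + 1) * (k + z + 3) ≤ m → i0 ∉ I → a i0 = 1 →
    Nat.card {y : Fin (k + 1) → ι → F2 // Cn S e B P o y ∧
        ∀ i ∈ I, dot B (y i) (pt P o (∑ j, a j • y j)) = ℓ i y} *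
      2 ^ (k + 1 + Bᶜ.card * k + k * (k - 1) / 2 + I.card) ≤ 2 * 2 ^ ((k + 1) * Fintype.card ι)

/-- the mean number of closed chains -/
def SGD : Prop :=
  ∀ (ι : Type) [Fintype ι] [DecidableEq ι] (S : Matrix ι ι F2) (e : ι → F2) (B P : Finset ι)
    (o : F2) (m z k f : ℕ), Ok i2 i2 S e B P (P ∩ B) false m z → (o = 1 → Even P.card) →
    4 * (k + 1) * (k + z + 3) ≤ m → k + 1 < f →
    Ex (Hs i2 B (P ∩ B)) (fun H => GT (S + H) e (P ∩ B) P o f) ≤ 2 ^ (z + 1 + f) / 2 ^ k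

/-- the probability of a chain that starts off the fresh indices -/
def SNG : Prop :=
  ∀ (ι : Type) [Fintype ι] [DecidableEq ι] (S : Matrix ι ι F2) (e : ι → F2) (B P : Finset ι)
    (o : F2) (m z k κ : ℕ), Ok i2 i2 S e B P (P ∩ B) false m z → (o = 1 → Even P.card) →
    4 * (k + 1) * (k + z + 3) ≤ m → Kr S e P ≤ 2 ^ κ →
    Ex (Hs i2 B (P ∩ B)) (fun H => ind (NG (S + H) e (P ∩ B) P o)) ≤ 2 ^ (κ + 2 * z + 2) / 2 ^ k

/-- failure in large degree -/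
def SHD : Prop :=
  ∀ (ι : Type) [Fintype ι] [DecidableEq ι] (S : Matrix ι ι F2) (e : ι → F2) (B P : Finset ι)
    (o : F2) (m z k κ : ℕ), Ok i2 i2 S e B P (P ∩ B) false m z → (o = 1 → Even P.card) →
    4 * (k + 1) * (k + z + 3) ≤ m → Kr S e P ≤ 2 ^ κ →
    Ex (Hs i2 B (P ∩ B)) (fun H => ind (Bad1 (S + H) e P o (k + 2))) ≤
      ((P ∩ B).card + 1) * 2 ^ (κ + 2 * z + 2) / 2 ^ k

/-- failure in small degree, and the kernel -/
structure SLD : Prop where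
  deg : ∀ (ι : Type) [Fintype ι] [DecidableEq ι] (S : Matrix ι ι F2) (e : ι → F2)
    (B F P T J : Finset ι) (o : F2) (m z f1 f2 : ℕ), Ok i2 i2 S e B P J false m z →
    Fr i2 S e B F P T J false → 2 ≤ f1 →
    Ex (Hs i2 B F) (fun H => ind (∃ p : F2[X], Irreducible p ∧ f1 ≤ p.natDegree ∧
      p.natDegree ≤ f2 ∧ Hit (S + H) e P o p)) ≤
      ∑ d ∈ Icc f1 f2, 1 / (4 * ((2 : ℝ) ^ d - 1)) + f2 * Er f2 z m
  one : ∀ (ι : Type) [Fintype ι] [DecidableEq ι] (S : Matrix ι ι F2) (e : ι → F2)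
    (B F P T J : Finset ι) (o : F2) (m z : ℕ) (p : F2[X]), Ok i2 i2 S e B P J false m z →
    Fr i2 S e B F P T J false → p.natDegree = 1 →
    Ex (Hs i2 B F) (fun H => ind (Hit (S + H) e P o p)) ≤ 71 / 168 + 2 * Er 3 z m
  ker : ∀ (ι : Type) [Fintype ι] [DecidableEq ι] (S : Matrix ι ι F2) (e : ι → F2)
    (B P J : Finset ι) (m z κ : ℕ), Ok i2 i2 S e B P J false m z →
    Ex (Hs i2 B B) (fun H => ind (2 ^ κ < Kr (S + H) e ∅)) ≤ 1 / 2 ^ (κ + 1) + Er (κ + 1) z m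

/-- failure at one level -/
structure SLV : Prop where
  low : ∃ x0 : ℕ, ∀ (ι : Type) [Fintype ι] [DecidableEq ι] (S : Matrix ι ι F2) (e : ι → F2)
    (B P : Finset ι) (o : F2) (x : ℕ), x0 ≤ x → Ok i2 i2 S e B P (P ∩ B) false (x ^ 5) x →
    (o = 1 → Even P.card) → (P ∩ B).card ≤ x ^ 11 → Kr S e P ≤ 1 →
    Ex (Hs i2 B (P ∩ B)) (fun H => ind (Bad1 (S + H) e P o 1)) ≤ 499 / 500
  high : ∃ x0 : ℕ, ∀ (ι : Type) [Fintype ι] [DecidableEq ι] (S : Matrix ι ι F2) (e : ι → F2)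
    (B P : Finset ι) (x f : ℕ) (η : ℝ), x0 ≤ x → Ok i2 i2 S e B P (P ∩ B) false (x ^ 5) x →
    (P ∩ B).card ≤ x ^ 11 → 1 ≤ f → f ≤ x →
    Ex (Hs i2 B B) (fun H => ind (2 ^ x < Kr (S + H) e P)) ≤ η →
    Ex (Hs i2 B B) (fun H => ind (Bad1 (S + H) e P 0 (f + 1))) ≤ η + 3 / 2 ^ f

/-- the number of ideals of given colength -/
def SIDC : Prop :=
  ∃ C : ℝ, ∀ (Λ : Type) [CommRing Λ] [Finite Λ] (st : Λ →+* Λ) (au : Λ →+* F2) (τ : Λ) (N γ : ℕ),
    LR st au τ N → {I : Ideal Λ[X] | Nat.card (Λ[X] ⧸ I) = 2 ^ γ}.Finite ∧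
      ({I : Ideal Λ[X] | Nat.card (Λ[X] ⧸ I) = 2 ^ γ}.ncard : ℝ) ≤ C * (7 / 2) ^ γ

/-- reduction to a short list of modules -/
def SWIN : Prop :=
  ∀ (Λ : Type) [CommRing Λ] [Finite Λ] (st : Λ →+* Λ) (au : Λ →+* F2) (τ : Λ) (N : ℕ),
    LR st au τ N → 1 ≤ N →
    ∃ (G : Ideal Λ[X] → Type) (_ : ∀ I, AddCommGroup (G I)) (_ : ∀ I, Module Λ (G I))
      (u : ∀ I, Module.End Λ (G I)),
      (∀ I γ, Nat.card (Λ[X] ⧸ I) = 2 ^ γ → Nat.card (G I) = 2 ^ γ) ∧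
      ∀ (ι : Type) [Fintype ι] [DecidableEq ι] (S : Matrix ι ι Λ) (c : ι → Λ) (P : Finset ι)
        (b : Bool) (f : ℕ), BadM au τ N f S c P b → ∃ I γ, N ≤ γ ∧ γ ≤ N + N * f ∧
          Nat.card (Λ[X] ⧸ I) = 2 ^ γ ∧ 2 ^ γ ≤ 2 * Sur S c P 0 b (u I)

/-- the probability of failure of higher order -/
def SMOD : Prop :=
  ∃ (C : ℝ) (x0 : ℕ), ∀ (Λ ι : Type) [CommRing Λ] [Finite Λ] [Fintype ι] [DecidableEq ι]
    (st : Λ →+* Λ) (au : Λ →+* F2) (τ : Λ) (N : ℕ) (S : Matrix ι ι Λ) (c : ι → Λ)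
    (B P J : Finset ι) (b : Bool) (x f : ℕ), LR st au τ N → x0 ≤ x →
    Ok st au S c B P J b (x ^ 5) x → 1 ≤ N → N ≤ x → f ≤ x →
    Ex (Hs st B B) (fun H => ind (BadM au τ N f (S + H) c P b)) ≤ C * (9 / 10) ^ N

/-- good configurations satisfy the standing hypotheses at each level -/
def SOK : Prop :=
  ∀ (Λ ι : Type) [CommRing Λ] [Fintype ι] [DecidableEq ι] (st : Λ →+* Λ) (au : Λ →+* F2)
    (lv : ι → ℕ) (e : ι → F2) (B : Finset ι) (S0 : Matrix ι ι F2) (S : Matrix ι ι Λ) (c : ι → Λ)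
    (tp j0 a a' : ℕ) (b : Bool), Nice lv e B S0 tp j0 → 55 ≤ j0 → a ≤ tp →
    a = a' + (if b = true then 1 else 0) → Sym st au S c (B.filter fun l => a' ≤ lv l) →
    (∀ l, a' ≤ lv l → au (c l) = e l) →
    (∀ l ∈ B, ∀ l', l' ∉ B → a' ≤ lv l → a' ≤ lv l' → au (S l l') = S0 l l' ∧ au (S l' l) = S0 l' l) →
    Ok (ι := {l // a' ≤ lv l}) st au (S.submatrix Subtype.val Subtype.val) (fun l => c l.1)
      (univ.filter fun l => l.1 ∈ B) (univ.filter fun l => lv l.1 = a')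
      ((univ.filter fun l => lv l.1 = a) ∩ univ.filter fun l => l.1 ∈ B) b (2 ^ jj tp j0 a)
      (if a' ≤ tp / 2 then xx tp j0 (tp / 2 + 1) else 0) ∧
    ((univ.filter fun l : {l // a' ≤ lv l} => lv l.1 = a) ∩ univ.filter fun l => l.1 ∈ B).card ≤
      xx tp j0 a ^ 11

/-- the probability of the good event of first order -/
def SRM0 : Prop :=
  ∃ (C : ℝ) (j1 : ℕ), ∀ (ι : Type) [Fintype ι] [DecidableEq ι] (lv : ι → ℕ) (e : ι → F2)
    (B : Finset ι) (S : Matrix ι ι F2) (tp j0 A : ℕ), Nice lv e B S tp j0 → Sym i2 i2 S e B →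
    j1 ≤ j0 → A < tp →
    49 / 100 * (1 / 500) ^ (A + 1) - ∑ a ∈ Ioc A tp, C / 2 ^ 2 ^ nn tp j0 a ≤
      Ex (Hs i2 B B) fun H => ind (G1 lv e (S + H) A tp j0)

/-- the probability of the bad events of higher order -/
def SRMN : Prop :=
  ∃ (C : ℝ) (j1 : ℕ), ∀ (Λ ι : Type) [CommRing Λ] [Finite Λ] [Fintype ι] [DecidableEq ι]
    (st : Λ →+* Λ) (au : Λ →+* F2) (τ : Λ) (lv : ι → ℕ) (e : ι → F2) (B : Finset ι)
    (S0 : Matrix ι ι F2) (S : Matrix ι ι Λ) (c : ι → Λ) (tp j0 a a' : ℕ) (b : Bool),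
    LR st au τ (2 ^ nn tp j0 a) → Nice lv e B S0 tp j0 → j1 ≤ j0 → a ≤ tp →
    a = a' + (if b = true then 1 else 0) → Sym st au S c (B.filter fun l => a' ≤ lv l) →
    (∀ l, a' ≤ lv l → au (c l) = e l) →
    (∀ l ∈ B, ∀ l', l' ∉ B → a' ≤ lv l → a' ≤ lv l' → au (S l l') = S0 l l' ∧ au (S l' l) = S0 l' l) →
    Ex (Hs st (B.filter fun l => a' ≤ lv l) (B.filter fun l => a' ≤ lv l)) (fun H =>
      ind (BadN au τ (2 ^ nn tp j0 a) (2 ^ nn tp j0 a) lv c (S + H) a' b)) ≤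
      C * (9 / 10) ^ 2 ^ nn tp j0 a

/-- the choice of the parameters -/
def SPAR : Prop :=
  ∀ (C C' : ℝ) (j1 : ℕ), ∃ (A j0 : ℕ) (c : ℝ), 0 < c ∧ j1 ≤ j0 ∧ 3 ≤ A ∧ ∀ tp : ℕ,
    c ≤ 49 / 100 * (1 / 500) ^ (A + 1) - ∑ a ∈ Ioc A tp, C / 2 ^ 2 ^ nn tp j0 a -
      ∑ a ∈ Ioc A tp, 2 * (C' * (9 / 10) ^ 2 ^ nn tp j0 a)

def OfCR : Prop := SAVG → SQF → SCR
def OfROB : Prop := SAVG → SQF → SROB
def OfML : Prop := SQF → SML
def OfNS : Prop := SAVG → SQF → SCR → SNS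
def OfMOM : Prop := SAVG → SQF → SCR → SROB → SML → SNS → SMOM
def OfHP : Prop := SAVG → SQF → SHP
def OfCH : Prop := SQF → SCH
def OfGD : Prop := SAVG → SQF → SHP → SCH → SGD
def OfNG : Prop := SAVG → SQF → SHP → SCH → SNG
def OfHD : Prop := SAVG → SGD → SNG → SHD
def OfLD : Prop := SAVG → SMOM → SLD
def OfLV : Prop := SAVG → SHD → SLD → SLV
def OfWIN : Prop := SQF → SWIN
def OfMOD : Prop := SAVG → SMOM → SIDC → SWIN → SMOD
def OfRM0 : Prop := SAVG → SLD → SLV → SOK → SRM0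
def OfRMN : Prop := SAVG → SMOD → SOK → SRMN

end Pool.Agent.MP_1246c0_nt.H12
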