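import Pool.Agent.MP_db5b97_nt.H85.Spec2
import Pool.Agent.MP_1246c0_nt.H12.Defs
import Pool.Agent.MP_1246c0_nt.H12.SpecR

/-! The algebra of the tower: definitions and statements of the pieces. -/

namespace Pool.Agent.MP_1246c0_nt.H12

open NumberField IsDedekindDomain Polynomial Finset Pool.Agent.MP_db5b97_nt.H85
open Pool.Agent.MP_1246c0_nt.H55 (Fund kD)

/-- the doubling map -/
def tw {R : Type} [Ring R] (x : R) : R := x ^ 2 - 2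

/-- the layer up to which an odd prime splits completely -/
def lev (l : ℕ) : ℕ := padicValNat 2 (l ^ 2 - 1) - 3

/-- the class modulo four -/
def eps (l : ℕ) : F2 := if l % 4 = 3 then 1 else 0

open Classical in
/-- the quadratic residue symbol, additively -/
noncomputable def qr {l : ℕ} (x : ZMod l) : F2 := if IsSquare x then 0 else 1

/-- the symbol of Legendre, additively -/
noncomputable def lg (a l : ℕ) : F2 := qr (a : ZMod l)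

/-- odd primes that split completely in the layer `n` -/
def Gd (n l : ℕ) : Prop := l.Prime ∧ l ≠ 2 ∧ n ≤ lev l

/-- bound for the number of ramified primes -/
def tt (d : ℕ) : ℕ := ∑ l ∈ d.primeFactors, 2 ^ lev l

/-- the largest level -/
def am (d : ℕ) : ℕ := d.primeFactors.sup lev

/-- a model of the layer `n` of the cyclotomic tower over the rationals -/
structure Cy (F : Type) [Field F] [NumberField F] (n : ℕ) (θ : F) (γ : F ≃ₐ[ℚ] F) : Prop where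
  rk : Module.finrank ℚ F = 2 ^ n
  gen : IntermediateField.adjoin ℚ {θ} = ⊤
  root : tw^[n] θ = 0
  act : γ θ = θ ^ 3 - 3 * θ

/-- a model of the layer `M` of the cyclotomic tower over the quadratic field -/
structure Tw (L : Type) [Field L] [NumberField L] (d M : ℕ) (s θ : L) (σ γ : L ≃ₐ[ℚ] L) :
    Prop where
  sqf : Squarefree d
  md : d % 8 = 5
  sq : s ^ 2 = d
  rk : Module.finrank ℚ L = 2 ^ (M + 1)
  gen : IntermediateField.adjoin ℚ {s, θ} = ⊤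
  root : tw^[M] θ = 0
  ss : σ s = -s
  st : σ θ = θ
  gs : γ s = s
  gt : γ θ = θ ^ 3 - 3 * θ

/-- fixed points of one element -/
def Fx (A : Type) {G : Type} [Group G] [AddCommGroup A] [DistribMulAction G A] (g : G) :
    AddSubgroup A where
  carrier := {x | g • x = x}
  add_mem' := fun hx hy => by
    simp only [Set.mem_ofPred_eq] at *
    rw [smul_add, hx, hy]
  zero_mem' := smul_zero g
  neg_mem' := fun hx => by
    simp only [Set.mem_ofPred_eq] at *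
    rw [smul_neg, hx]

theorem mem_Fx {A G : Type} [Group G] [AddCommGroup A] [DistribMulAction G A] {g : G} {x : A} :
    x ∈ Fx A g ↔ g • x = x := Iff.rfl

/-- the map on multiplicative groups -/
def um {E F : Type} [Field E] [Field F] (j : E →+* F) : Un E →+ Un F :=
  Un.map j.toMonoidWithZeroHom

@[simp] theorem val_um {E F : Type} [Field E] [Field F] (j : E →+* F) (x : Un E) :
    (um j x).val = j x.val := rfl

section Sub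

variable {L : Type} [Field L] [NumberField L]

variable (L) in
/-- units -/
noncomputable def Eu : AddSubgroup (Un L) := ⨅ w : Sp L, (ord w).ker

/-- divisors with an odd multiple that is the divisor of an element of `U` -/
def Od (U : AddSubgroup (Un L)) : AddSubgroup (Dv L 2) where
  carrier := {D | ∃ k : ℕ, Odd k ∧ ∃ x ∈ U, k • D = dv L 2 x}
  zero_mem' := ⟨1, odd_one, 0, zero_mem _, by simp⟩
  add_mem' := by
    rintro D D' ⟨k, hk, x, hx, e⟩ ⟨k', hk', x', hx', e'⟩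
    refine ⟨k * k', hk.mul hk', k' • x + k • x', add_mem (nsmul_mem hx _) (nsmul_mem hx' _), ?_⟩
    rw [map_add, map_nsmul, map_nsmul, ← e, ← e', smul_add, smul_smul, smul_smul, mul_comm k' k]
  neg_mem' := by
    rintro D ⟨k, hk, x, hx, e⟩
    exact ⟨k, hk, -x, neg_mem hx, by rw [map_neg, ← e, smul_neg]⟩

theorem mem_Od {U : AddSubgroup (Un L)} {D : Dv L 2} :
    D ∈ Od U ↔ ∃ k : ℕ, Odd k ∧ ∃ x ∈ U, k • D = dv L 2 x := Iff.rfl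

/-- divisors of the layer `m` -/
noncomputable def Iv (γ : L ≃ₐ[ℚ] L) (m : ℕ) : AddSubgroup (Dv L 2) := Fx (Dv L 2) (γ ^ 2 ^ m)

/-- divisors of the layer `m` whose class has odd order -/
noncomputable def Oc (γ : L ≃ₐ[ℚ] L) (m : ℕ) : AddSubgroup (Dv L 2) := Od (Fx (Un L) (γ ^ 2 ^ m))

/-- divisors that come from the layer `m` over the rationals -/
noncomputable def Ob (σ γ : L ≃ₐ[ℚ] L) (m : ℕ) : AddSubgroup (Dv L 2) :=
  Od (Fx (Un L) (γ ^ 2 ^ m) ⊓ Fx (Un L) σ)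

variable (L) in
/-- divisors supported on the primes dividing `d` -/
def Rm (d : ℕ) : AddSubgroup (Dv L 2) where
  carrier := {D | ∀ w : Pr L 2, (d : 𝓞 L) ∉ w.1.asIdeal → D w = 0}
  zero_mem' := fun _ _ => rfl
  add_mem' := fun hx hy w hw => by rw [Finsupp.add_apply, hx w hw, hy w hw, add_zero]
  neg_mem' := fun hx w hw => by rw [Finsupp.neg_apply, hx w hw, neg_zero]

omit [NumberField L] in
theorem mem_Rm {d : ℕ} {D : Dv L 2} :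
    D ∈ Rm L d ↔ ∀ w : Pr L 2, (d : 𝓞 L) ∉ w.1.asIdeal → D w = 0 := Iff.rfl

/-- the residues of `b` at the primes dividing `d` are the signs given by `c` -/
def Sgn (d : ℕ) (b : Un L) (c : Dv L 2) : Prop :=
  ∀ w : Pr L 2, (d : 𝓞 L) ∈ w.1.asIdeal → w.1.valuation L (b.val - (-1) ^ c w) < 1

open Classical in
/-- the residue symbol at a prime -/
noncomputable def qv (w : Sp L) (x : L) : F2 := if ∃ z : L, w.valuation L (x - z ^ 2) < 1 then 0 else 1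

/-- the tame symbol -/
noncomputable def tame (w : Sp L) (a b : Un L) : F2 :=
  qv w ((-1) ^ (ord w a * ord w b) * (ord w b • a - ord w a • b).val)

open Classical in
/-- the sum of the tame and of the real symbols -/
noncomputable def dy (a b : Un L) : F2 :=
  (∑ᶠ w : Pr L 2, tame w.1 a b) + ∑ᶠ ρ : L →+* ℝ, if ρ a.val < 0 ∧ ρ b.val < 0 then 1 else 0

end Sub

/-- evaluation of a coefficient function -/
def cv {Λ : Type} [CommRing Λ] {N : ℕ} [NeZero N] (g : Λ) (f : ZMod N → F2) : Λ :=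
  ∑ k, ((f k).val : Λ) * g ^ k.val

/-- the group ring of the cyclic group of order `N` over the field with two elements -/
structure LG {Λ : Type} [CommRing Λ] (st : Λ →+* Λ) (au : Λ →+* F2) (g : Λ) (N : ℕ) [NeZero N] :
    Prop where
  lr : LR st au (g - 1) N
  pw : g ^ N = 1
  sg : st g * g = 1
  bij : Function.Bijective (cv (N := N) g)
  lift : ∀ (R : Type) [CommRing R] (u : R), (2 : R) = 0 → u ^ N = 1 → ∃ φ : Λ →+* R, φ g = u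

/-- coefficient functions -/
abbrev Co (n : ℕ) : Type := ZMod (2 ^ n) → F2

/-- primes, generators and a unit in the layer `n` -/
structure Dat (n : ℕ) where
  F : Type
  [fld : Field F]
  [nf : NumberField F]
  θ : F
  γ : F ≃ₐ[ℚ] F
  cy : Cy F n θ γ
  η : 𝓞 F
  unit : IsUnit η
  sgn : ∃ ρ₀ : F →+* ℝ, ρ₀ η < 0 ∧ ∀ ρ : F →+* ℝ, ρ ≠ ρ₀ → 0 < ρ η
  h : ℕ
  odd : Odd h
  φ : ∀ l : ℕ, 𝓞 F → ZMod l
  π : ℕ → 𝓞 F
  hom : ∀ l, Gd n l → ∃ ψ : 𝓞 F →+* ZMod l, (∀ x, φ l x = ψ x) ∧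
    Ideal.span {π l} = RingHom.ker ψ ^ h
  pos : ∀ l, Gd n l → ∀ ρ : F →+* ℝ, 0 < ρ (π l)

attribute [instance] Dat.fld Dat.nf

namespace Dat

variable {n : ℕ} (D : Dat n)

/-- the symbols of an element at the conjugates of the chosen prime -/
noncomputable def sy (l : ℕ) (x : 𝓞 D.F) : Co n := fun k => qr (D.φ l (D.γ⁻¹ ^ k.val • x))

/-- symbols of a pair of primes -/
noncomputable def rr (l l' : ℕ) : Co n := D.sy l' (D.π l)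

/-- symbols of the unit -/
noncomputable def cc (l : ℕ) : Co n := D.sy l D.η

/-- symbols of a prime at its own conjugates -/
noncomputable def ow (l : ℕ) : Co n := fun k =>
  if k = 0 then eps l + ∑ k' ∈ univ.erase 0, D.rr l l k' else D.rr l l k

/-- the matrix of symbols -/
noncomputable def Rc (S : Finset ℕ) (l l' : ℕ) : Co n :=
  if l = l' then D.ow l + Pi.single 0 (∑ c ∈ S.erase l, lg c l) else D.rr l l'

end Dat

/-- the matrix of symbols over the rationals -/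
noncomputable def R0 (S : Finset ℕ) (l l' : ℕ) : F2 :=
  if l = l' then eps l + ∑ c ∈ S.erase l, lg c l else lg l l'

/-- the element `(1 + t) ^ 2 ^ k - 1` -/
def om {O : Type} [CommRing O] (k : ℕ) (t : O) : O := (1 + t) ^ 2 ^ k - 1

/-- the norm element -/
def nu {O : Type} [CommRing O] (k : ℕ) (t : O) : O := ∑ i ∈ range (2 ^ k), (1 + t) ^ i

/-- an eigenvalue -/
def Eg {O : Type} [CommRing O] (t : O) : Prop := ¬IsUnit (2 : O) ∧ ¬IsUnit t ∧ ∃ k, 2 ∣ om k t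

/-- the level of an eigenvalue -/
def Lv {O : Type} [CommRing O] (t : O) (a : ℕ) : Prop := 2 ∣ om a t ∧ ∀ i < a, ¬2 ∣ om i t

/-- the relations satisfied by an eigenfunctional -/
structure Rel {O : Type} [CommRing O] (S : Finset ℕ) (n : ℕ) (R : ℕ → ℕ → Co n) (c : ℕ → Co n)
    (t : O) (y : ℕ → O) : Prop where
  unit : ∃ l ∈ S, IsUnit (y l)
  s0 : ∀ l ∈ S, 2 ∣ om (lev l) t * y l
  s1 : ∀ l ∈ S, n ≤ lev l → ∃ C : ℕ → O, (∀ l' ∈ S, n ≤ lev l' → C l' = cv (1 + t) (R l l')) ∧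
    ∃ z, om (lev l) t * y l = 2 * z ∧ z - ∑ l' ∈ S, C l' * y l' ∈ Ideal.span {2, t ^ 2 ^ n}
  s2 : ∃ C : ℕ → O, (∀ l' ∈ S, n ≤ lev l' → C l' = cv (1 + t) (c l')) ∧
    ∑ l' ∈ S, C l' * y l' ∈ Ideal.span {2, t ^ 2 ^ n}
  s3 : 2 ∣ ∑ l ∈ S, nu (lev l) t * y l

section Lab

variable {ι : Type} [Fintype ι] [DecidableEq ι]

/-- a labelling of the primes of `d` other than the large one -/
structure Lab (pr : ι → ℕ) (P : ℕ) : Prop where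
  inj : pr.Injective
  odd : ∀ i, Gd 0 (pr i)
  prime : P.Prime
  md : P % 8 = 5
  ne : ∀ i, pr i ≠ P
  es : ∑ i, eps (pr i) = 0
  ev : Even (univ.filter fun i => lev (pr i) = 0).card

/-- all primes of `d` -/
def SP (pr : ι → ℕ) (P : ℕ) : Finset ℕ := insert P (univ.image pr)

/-- the matrix over the rationals -/
noncomputable def Sm0 (pr : ι → ℕ) (P : ℕ) : Matrix ι ι F2 :=
  fun i j => R0 (SP pr P) (pr i) (pr j)

/-- the matrix in the layer `n` -/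
noncomputable def SmN {n : ℕ} (D : Dat n) {Λ : Type} [CommRing Λ] (g : Λ) (pr : ι → ℕ) (P : ℕ) :
    Matrix ι ι Λ := fun i j => cv g (D.Rc (SP pr P) (pr i) (pr j))

end Lab

/-! ### Statements -/

/-- the layers over the rationals -/
structure SCY : Prop where
  gal : ∀ (F : Type) [Field F] [NumberField F] (n : ℕ) (θ : F) (γ : F ≃ₐ[ℚ] F), Cy F n θ γ →
    IsGalois ℚ F ∧ (∀ g : F ≃ₐ[ℚ] F, ∃ k : ℕ, g = γ ^ k) ∧ orderOf γ = 2 ^ n ∧ IsIntegral ℤ θ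
  real : ∀ (F : Type) [Field F] [NumberField F] (n : ℕ) (θ : F) (γ : F ≃ₐ[ℚ] F), Cy F n θ γ →
    IsTotallyReal F ∧ Nat.card (F →+* ℝ) = 2 ^ n ∧
      ∀ ρ ρ' : F →+* ℝ, ∃ k : ℕ, ∀ x, ρ' x = ρ ((γ ^ k) x)
  two : ∀ (F : Type) [Field F] [NumberField F] (n : ℕ) (θ : F) (γ : F ≃ₐ[ℚ] F), Cy F n θ γ →
    2 + θ ≠ 0 ∧ ∃ w : Sp F, (∀ v : Sp F, ((2 : ℕ) : 𝓞 F) ∈ v.asIdeal ↔ v = w) ∧
      (∀ x : Un F, x.val = 2 + θ → ord w x = 1 ∧ dv F 2 x = 0) ∧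
      (∀ x : Un F, x.val = 2 → ord w x = 2 ^ n) ∧
      ∀ x : 𝓞 F, x ∈ w.asIdeal ∨ x - 1 ∈ w.asIdeal
  dist : ∀ (F : Type) [Field F] [NumberField F] (n : ℕ) (θ : F) (γ : F ≃ₐ[ℚ] F), Cy F n θ γ →
    ∀ (w : Pr F 2) (k : ℕ), w.1.valuation F ((γ ^ k) θ - θ) < 1 → γ ^ k = 1
  ex : ∀ n : ℕ, ∃ (F : Type) (_ : Field F) (_ : NumberField F) (θ : F) (γ : F ≃ₐ[ℚ] F), Cy F n θ γ
  emb : ∀ (F F' : Type) [Field F] [NumberField F] [Field F'] [NumberField F'] (m n : ℕ) (θ : F)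
    (γ : F ≃ₐ[ℚ] F) (θ' : F') (γ' : F' ≃ₐ[ℚ] F'), Cy F m θ γ → Cy F' n θ' γ' → m ≤ n →
    ∃ j : F →+* F', j θ = tw^[n - m] θ' ∧ (∀ x, j (γ x) = γ' (j x)) ∧
      ∀ y, y ∈ j.range ↔ (γ' ^ 2 ^ m) y = y

/-- decomposition of odd primes -/
structure SDEC : Prop where
  dec : ∀ (F : Type) [Field F] [NumberField F] (n : ℕ) (θ : F) (γ : F ≃ₐ[ℚ] F), Cy F n θ γ →
    ∀ (l : ℕ) (w : Sp F), Gd 0 l → (l : 𝓞 F) ∈ w.asIdeal →
      (∀ j : ℕ, γ ^ j • w = w ↔ 2 ^ min (lev l) n ∣ j) ∧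
      (∀ w' : Sp F, (l : 𝓞 F) ∈ w'.asIdeal → ∃ j : ℕ, w' = γ ^ j • w) ∧
      (∀ x : Un F, x.val = l → ord w x = 1) ∧
      ∀ x : 𝓞 F, γ ^ 2 ^ lev l • x - x ∈ w.asIdeal → ∃ a : ℤ, x - a ∈ w.asIdeal
  split : ∀ (F : Type) [Field F] [NumberField F] (n : ℕ) (θ : F) (γ : F ≃ₐ[ℚ] F), Cy F n θ γ →
    ∀ l : ℕ, Gd n l → Nonempty (𝓞 F →+* ZMod l)
  cls : ∀ l : ℕ, l % 2 = 1 → 1 < l → (lev l = 0 ↔ l % 8 = 3 ∨ l % 8 = 5) ∧ 2 ^ lev l ≤ l ∧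
    ∀ a : ℕ, (a ≤ lev l ∧ eps l = 0 ↔ l % 2 ^ (a + 2) = 1) ∧
      (a ≤ lev l ∧ eps l = 1 ↔ l % 2 ^ (a + 2) = 2 ^ (a + 2) - 1) ∧
      (lev l = a ∧ eps l = 0 ↔ l % 2 ^ (a + 3) = 2 ^ (a + 2) + 1) ∧
      (lev l = a ∧ eps l = 1 ↔ l % 2 ^ (a + 3) = 2 ^ (a + 2) - 1)

/-- units of the layers over the rationals -/
structure SUN : Prop where
  sig : ∀ (F : Type) [Field F] [NumberField F] (n : ℕ) (θ : F) (γ : F ≃ₐ[ℚ] F), Cy F n θ γ →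
    ∀ A : Set (F →+* ℝ), ∃ u ∈ Eu F, ∀ ρ : F →+* ℝ, ρ u.val < 0 ↔ ρ ∈ A
  sq : ∀ (F : Type) [Field F] [NumberField F] (n : ℕ) (θ : F) (γ : F ≃ₐ[ℚ] F), Cy F n θ γ →
    ∀ u ∈ Eu F, (∀ ρ : F →+* ℝ, 0 < ρ u.val) → ∃ v ∈ Eu F, u = 2 • v
  gen : ∀ (F : Type) [Field F] [NumberField F] (n : ℕ) (θ : F) (γ : F ≃ₐ[ℚ] F), Cy F n θ γ →
    ∃ η ∈ Eu F, η.val = -(1 + θ) ∧
      ∀ u ∈ Eu F, ∃ (a : ℕ → ℕ), ∃ v ∈ Eu F, u = ∑ k ∈ range (2 ^ n), a k • γ ^ k • η + 2 • v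
  uni : ∀ (F : Type) [Field F] [NumberField F] (n : ℕ) (θ : F) (γ : F ≃ₐ[ℚ] F), Cy F n θ γ →
    ∀ (U : AddSubgroup (Un F)) (k m : ℕ), U ≤ Eu F → (∀ v ∈ Eu F, 2 • v ∈ U) →
      (∀ u ∈ U, γ • u ∈ U) → U.relIndex (Eu F) ≤ 2 ^ k → k + 2 ^ m ≤ 2 ^ n →
      ∀ u ∈ Eu F, (∃ v ∈ Eu F, γ ^ 2 ^ m • u - u = 2 • v) → u ∈ U
  idx : ∀ (F : Type) [Field F] [NumberField F] (n : ℕ) (θ : F) (γ : F ≃ₐ[ℚ] F), Cy F n θ γ →
    ((Eu F).map (nsmulAddMonoidHom 2)).relIndex (Eu F) = 2 ^ 2 ^ n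
  int : ∀ (F : Type) [Field F] [NumberField F] (x : Un F),
    x ∈ Eu F ↔ ∃ u : (𝓞 F)ˣ, x.val = ((u : 𝓞 F) : F)

/-- the class numbers of the layers over the rationals are odd -/
def SODD : Prop :=
  ∀ (F : Type) [Field F] [NumberField F] (n : ℕ) (θ : F) (γ : F ≃ₐ[ℚ] F), Cy F n θ γ →
    Odd (classNumber F)

/-- the layers over the quadratic field -/
structure STW : Prop where
  gal : ∀ (L : Type) [Field L] [NumberField L] (d M : ℕ) (s θ : L) (σ γ : L ≃ₐ[ℚ] L),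
    Tw L d M s θ σ γ → IsGalois ℚ L ∧ (∀ g : L ≃ₐ[ℚ] L, ∃ k : ℕ, g = γ ^ k ∨ g = σ * γ ^ k) ∧
      σ * σ = 1 ∧ σ * γ = γ * σ ∧ orderOf γ = 2 ^ M ∧ (∀ k : ℕ, σ ≠ γ ^ k) ∧ IsTotallyReal L
  emb : ∀ (L F : Type) [Field L] [NumberField L] [Field F] [NumberField F] (d M m : ℕ) (s θ : L)
    (σ γ : L ≃ₐ[ℚ] L) (θ' : F) (γ' : F ≃ₐ[ℚ] F), Tw L d M s θ σ γ → Cy F m θ' γ' → m ≤ M →
    ∃ j : F →+* L, j θ' = tw^[M - m] θ ∧ (∀ x, j (γ' x) = γ (j x)) ∧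
      ∀ y, y ∈ j.range ↔ σ y = y ∧ (γ ^ 2 ^ m) y = y
  ex : ∀ d M : ℕ, Squarefree d → d % 8 = 5 → ∃ (L : Type) (_ : Field L) (_ : NumberField L)
    (s θ : L) (σ γ : L ≃ₐ[ℚ] L), Tw L d M s θ σ γ
  sub : ∀ (L L' : Type) [Field L] [NumberField L] [Field L'] [NumberField L'] (d M m : ℕ)
    (s θ : L) (σ γ : L ≃ₐ[ℚ] L) (s' θ' : L') (σ' γ' : L' ≃ₐ[ℚ] L'), Tw L d M s θ σ γ →
    Tw L' d m s' θ' σ' γ' → m ≤ M →
    ∃ j : L' →+* L, j s' = s ∧ j θ' = tw^[M - m] θ ∧ (∀ x, j (σ' x) = σ (j x)) ∧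
      (∀ x, j (γ' x) = γ (j x)) ∧ ∀ y, y ∈ j.range ↔ (γ ^ 2 ^ m) y = y

/-- primes in the layers over the quadratic field -/
structure STP : Prop where
  ram : ∀ (L : Type) [Field L] [NumberField L] (d M : ℕ) (s θ : L) (σ γ : L ≃ₐ[ℚ] L),
    Tw L d M s θ σ γ → ∀ w : Pr L 2, (d : 𝓞 L) ∈ w.1.asIdeal →
      σ • w = w ∧ (∀ x : Un L, x.val = s → ord w.1 x = 1) ∧ ∀ x : 𝓞 L, σ • x - x ∈ w.1.asIdeal
  unr : ∀ (L : Type) [Field L] [NumberField L] (d M : ℕ) (s θ : L) (σ γ : L ≃ₐ[ℚ] L),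
    Tw L d M s θ σ γ → ∀ w : Pr L 2, ((d : 𝓞 L) ∉ w.1.asIdeal → ∀ x : Un L, x.val = s →
      ord w.1 x = 0) ∧ ∀ g : L ≃ₐ[ℚ] L, (∀ x : 𝓞 L, g • x - x ∈ w.1.asIdeal) →
        g = 1 ∨ (g = σ ∧ (d : 𝓞 L) ∈ w.1.asIdeal)
  dec : ∀ (L : Type) [Field L] [NumberField L] (d M : ℕ) (s θ : L) (σ γ : L ≃ₐ[ℚ] L),
    Tw L d M s θ σ γ → ∀ (l : ℕ) (w : Pr L 2), l.Prime → l ∣ d → (l : 𝓞 L) ∈ w.1.asIdeal →
      (∀ j : ℕ, γ ^ j • w = w ↔ 2 ^ min (lev l) M ∣ j) ∧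
      (∀ w' : Pr L 2, (l : 𝓞 L) ∈ w'.1.asIdeal → ∃ j : ℕ, w' = γ ^ j • w) ∧
      ∀ x : 𝓞 L, γ ^ 2 ^ lev l • x - x ∈ w.1.asIdeal → ∃ a : ℤ, x - a ∈ w.1.asIdeal
  two : ∀ (L : Type) [Field L] [NumberField L] (d M : ℕ) (s θ : L) (σ γ : L ≃ₐ[ℚ] L),
    Tw L d M s θ σ γ → 2 + θ ≠ 0 ∧ ∃ w : Sp L, (∀ v : Sp L, ((2 : ℕ) : 𝓞 L) ∈ v.asIdeal ↔ v = w) ∧
      ∀ x : Un L, x.val = 2 + θ → ord w x = 1 ∧ dv L 2 x = 0
  fin : ∀ (L : Type) [Field L] [NumberField L] (d M : ℕ) (s θ : L) (σ γ : L ≃ₐ[ℚ] L),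
    Tw L d M s θ σ γ → {w : Pr L 2 | (d : 𝓞 L) ∈ w.1.asIdeal}.Finite ∧
      {w : Pr L 2 | (d : 𝓞 L) ∈ w.1.asIdeal}.ncard ≤ tt d ∧
      (∀ l : ℕ, l.Prime → l ∣ d → ∃ w : Pr L 2, (l : 𝓞 L) ∈ w.1.asIdeal) ∧
      ∀ m, am d ≤ m → Rm L d ≤ Iv γ m
  pull : ∀ (L L' : Type) [Field L] [NumberField L] [Field L'] [NumberField L'] (d M m : ℕ)
    (s θ : L) (σ γ : L ≃ₐ[ℚ] L) (s' θ' : L') (σ' γ' : L' ≃ₐ[ℚ] L') (j : L' →+* L),
    Tw L d M s θ σ γ → Tw L' d m s' θ' σ' γ' → m ≤ M → (∀ x, j (σ' x) = σ (j x)) →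
    (∀ x, j (γ' x) = γ (j x)) → (∀ y, y ∈ j.range ↔ (γ ^ 2 ^ m) y = y) →
    ∃ κ : Dv L' 2 →+ Dv L 2, Function.Injective κ ∧ κ.range = Iv γ m ∧
      (∀ x, κ (dv L' 2 x) = dv L 2 (um j x)) ∧ (∀ D, κ (σ' • D) = σ • κ D) ∧
      (∀ D, κ (γ' • D) = γ • κ D) ∧ (∀ D, κ D ∈ Rm L d ↔ D ∈ Rm L' d) ∧
      ∀ D, κ D ∈ Oc γ m ↔ D ∈ Od ⊤

/-- invariant divisors -/
structure SAMB : Prop where
  eqv : ∀ (L : Type) [Field L] [NumberField L] (g : L ≃ₐ[ℚ] L) (x : Un L),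
    dv L 2 (g • x) = g • dv L 2 x
  sub : ∀ (L : Type) [Field L] [NumberField L] (σ γ : L ≃ₐ[ℚ] L) (m : ℕ), Ob σ γ m ≤ Oc γ m ∧
    Oc γ m ≤ Iv γ m ∧ Oc γ m ≤ Oc γ (m + 1) ∧ Iv γ m ≤ Iv γ (m + 1) ∧
    (∀ D ∈ Oc γ m, γ • D ∈ Oc γ m) ∧ (∀ D ∈ Iv γ m, γ • D ∈ Iv γ m) ∧
    ∀ d : ℕ, ∀ D ∈ Rm L d, γ • D ∈ Rm L d
  amb : ∀ (L : Type) [Field L] [NumberField L] (d M m : ℕ) (s θ : L) (σ γ : L ≃ₐ[ℚ] L),
    Tw L d M s θ σ γ → m ≤ M → ∀ D ∈ Iv γ m, σ • D = D →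
      ((∀ w : Pr L 2, (d : 𝓞 L) ∈ w.1.asIdeal → Even (D w)) → D ∈ Ob σ γ m) ∧
      ∃ c ∈ Rm L d ⊓ Iv γ m, (∀ w : Pr L 2, (d : 𝓞 L) ∈ w.1.asIdeal → c w = D w) ∧
        D - c ∈ Ob σ γ m
  h1 : ∀ (L : Type) [Field L] [NumberField L] (d M m : ℕ) (s θ : L) (σ γ : L ≃ₐ[ℚ] L),
    Tw L d M s θ σ γ → ∀ B ∈ Iv γ m, B + σ • B = 0 →
      ∃ E ∈ Iv γ m, B = E - σ • E ∧ ∀ w : Pr L 2, σ • w = w → E w = 0
  h90 : ∀ (L : Type) [Field L] [NumberField L] (d M m : ℕ) (s θ : L) (σ γ : L ≃ₐ[ℚ] L),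
    Tw L d M s θ σ γ → ∀ x : Un L, γ ^ 2 ^ m • x = x → x + σ • x = 0 →
      ∃ δ : Un L, γ ^ 2 ^ m • δ = δ ∧ x = δ - σ • δ
  dm : ∀ (L : Type) [Field L] [NumberField L] (d M m : ℕ) (s θ : L) (σ γ : L ≃ₐ[ℚ] L),
    Tw L d M s θ σ γ → m ≤ M → (Oc γ m).relIndex (Rm L d ⊓ Iv γ m) ≠ 0 ∧
      (Oc γ m).relIndex (Rm L d ⊓ Iv γ m) ≤ 2 ^ tt d

/-- norms of units -/
structure SHERB : Prop where
  idx : ∀ (L : Type) [Field L] [NumberField L] (d M m : ℕ) (s θ : L) (σ γ : L ≃ₐ[ℚ] L),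
    Tw L d M s θ σ γ → m ≤ M →
      (((dv L 2).ker ⊓ Fx (Un L) (γ ^ 2 ^ m)).map (Nm σ 2)).relIndex
        ((dv L 2).ker ⊓ Fx (Un L) (γ ^ 2 ^ m) ⊓ Fx (Un L) σ) ≠ 0 ∧
      (((dv L 2).ker ⊓ Fx (Un L) (γ ^ 2 ^ m)).map (Nm σ 2)).relIndex
        ((dv L 2).ker ⊓ Fx (Un L) (γ ^ 2 ^ m) ⊓ Fx (Un L) σ) ≤ 2 ^ (tt d + 1)
  up : ∀ (L : Type) [Field L] [NumberField L] (d M m : ℕ) (s θ : L) (σ γ : L ≃ₐ[ℚ] L),
    Tw L d M s θ σ γ → m + 1 ≤ M → tt d ≤ 2 ^ m → ∀ u : Un L, dv L 2 u = 0 → σ • u = u →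
      γ ^ 2 ^ m • u = u → ∃ ε : Un L, dv L 2 ε = 0 ∧ γ ^ 2 ^ (m + 1) • ε = ε ∧ u = ε + σ • ε

/-- classes of order two -/
structure SCAP : Prop where
  cap : ∀ (L : Type) [Field L] [NumberField L] (d M m : ℕ) (s θ : L) (σ γ : L ≃ₐ[ℚ] L),
    Tw L d M s θ σ γ → m + 1 ≤ M → tt d ≤ 2 ^ m → ∀ D ∈ Iv γ m, 2 • D ∈ Oc γ m →
      D ∈ Rm L d ⊔ Oc γ (m + 1)
  rank : ∀ (L : Type) [Field L] [NumberField L] (d M m : ℕ) (s θ : L) (σ γ : L ≃ₐ[ℚ] L),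
    Tw L d M s θ σ γ → m ≤ M →
      (Oc γ m).relIndex (Iv γ m ⊓ (Oc γ m).comap (nsmulAddMonoidHom 2)) ≠ 0 ∧
      (Oc γ m).relIndex (Iv γ m ⊓ (Oc γ m).comap (nsmulAddMonoidHom 2)) ≤ 2 ^ (2 * tt d + 1)

/-- elements supported on the ramified primes become norms -/
def SHN : Prop :=
  ∀ (L : Type) [Field L] [NumberField L] (d M m : ℕ) (s θ : L) (σ γ : L ≃ₐ[ℚ] L),
    Tw L d M s θ σ γ → am d ≤ m → m + 1 ≤ M → ∀ x : Un L, σ • x = x → γ ^ 2 ^ m • x = x →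
      dv L 2 x ∈ Rm L d → ∃ β : Un L, γ ^ 2 ^ (m + 1) • β = β ∧ β + σ • β = x

/-- halving a class -/
structure SHALF : Prop where
  half : ∀ (L : Type) [Field L] [NumberField L] (d M m n : ℕ) (s θ : L) (σ γ : L ≃ₐ[ℚ] L),
    Tw L d M s θ σ γ → n ≤ m → m ≤ M → ∀ (x β : Un L) (C : Dv L 2), γ ^ 2 ^ n • x = x →
      γ ^ 2 ^ m • β = β → β + σ • β = x → dv L 2 x = 2 • C → C ∈ Rm L d →
      ∃ E ∈ Iv γ m, ∃ c ∈ Rm L d, 2 • E - C ∈ Oc γ m ∧ γ ^ 2 ^ n • E - E - c ∈ Oc γ m ∧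
        Sgn d (γ ^ 2 ^ n • β - β) c
  div : ∀ (L : Type) [Field L] [NumberField L] (d M m : ℕ) (s θ : L) (σ γ : L ≃ₐ[ℚ] L),
    Tw L d M s θ σ γ → am d < m → m ≤ M → ∀ c ∈ Rm L d, ∃ E ∈ Iv γ m, 2 • E - c ∈ Oc γ m

/-- the parity along an orbit is a residue symbol -/
def SSIGN : Prop :=
  ∀ (L F : Type) [Field L] [NumberField L] [Field F] [NumberField F] (d M n l e : ℕ) (s θ : L)
    (σ γ : L ≃ₐ[ℚ] L) (j : F →+* L) (ψ : 𝓞 F →+* ZMod l) (w : Pr L 2) (β : Un L) (a b : 𝓞 F)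
    (c : Dv L 2), Tw L d M s θ σ γ → l.Prime → l ∣ d → n ≤ lev l → lev l ≤ M →
    (∀ z : 𝓞 F, ψ z = 0 ↔ w.1.valuation L (j z) < 1) → ψ a ≠ 0 → ψ b ≠ 0 →
    (β + σ • β).val * j b = j a * (-(d : L)) ^ e → Sgn d (γ ^ 2 ^ n • β - β) c →
    ∑ i ∈ range (2 ^ (lev l - n)), ((c (γ ^ (i * 2 ^ n) • w) : ℤ) : F2) = qr (ψ (a * b))

/-- eigenfunctionals modulo four -/
def SEIG : Prop :=
  ∀ (V : Type) [AddCommGroup V] [Finite V] (γ : V →+ V) (K : ℕ), (∀ v, γ^[2 ^ K] v = v) →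
    (∀ v : V, 4 • v = 0) → (∀ v : V, 2 • v = 0 → ∃ v', v = 2 • v') → (∃ v : V, v ≠ 0) →
    ∃ (O : Type) (_ : CommRing O) (_ : IsDomain O) (_ : IsDiscreteValuationRing O)
      (_ : CharZero O) (_ : Finite (IsLocalRing.ResidueField O)) (t : O)
      (χ : V →+ O ⧸ Ideal.span {(4 : O)}), Eg t ∧
      (∀ v, χ (γ v) = Ideal.Quotient.mk _ (1 + t) * χ v) ∧
      ∃ v y, IsUnit y ∧ χ v = Ideal.Quotient.mk _ y

/-- doubles are norms from the next layer -/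
def SBND : Prop :=
  ∀ ρ : ℕ, ∃ m0 : ℕ, ∀ (A : Type) [AddCommGroup A] [Finite A] (γ : A →+ A) (K m : ℕ),
    (∀ a : A, ∃ k : ℕ, 2 ^ k • a = 0) → (∀ a, γ^[2 ^ K] a = a) →
    Nat.card {a : A // 2 • a = 0} ≤ 2 ^ ρ → m0 ≤ m → ∀ a : A, ∃ a', 2 • a = a' + γ^[2 ^ m] a'

/-- passage to class numbers -/
structure SBR : Prop where
  ub : ∀ d m : ℕ, ∃ b : ℕ, ∀ (L : Type) [Field L] [NumberField L] (M : ℕ) (s θ : L)
    (σ γ : L ≃ₐ[ℚ] L), Tw L d M s θ σ γ → m ≤ M →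
      (Oc γ m).relIndex (Iv γ m) ≠ 0 ∧ (Oc γ m).relIndex (Iv γ m) ≤ b
  br : ∀ d b : ℕ, Squarefree d → d % 8 = 5 →
    (∀ (L : Type) [Field L] [NumberField L] (M : ℕ) (s θ : L) (σ γ : L ≃ₐ[ℚ] L),
      Tw L d M s θ σ γ → (Oc γ M).relIndex (Iv γ M) ≤ b) → Green2 (kD d)

/-- capitulation of the ramified primes gives boundedness -/
def SGR : Prop :=
  ∀ d m1 : ℕ, Squarefree d → d % 8 = 5 →
    (∀ (L : Type) [Field L] [NumberField L] (M m : ℕ) (s θ : L) (σ γ : L ≃ₐ[ℚ] L),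
      Tw L d M s θ σ γ → m1 ≤ m → m + 1 ≤ M → Rm L d ⊓ Oc γ (m + 1) ≤ Oc γ m →
      Rm L d ≤ Oc γ (m + 1)) → Green2 (kD d)

/-- the group ring -/
structure SLAM : Prop where
  ex : ∀ n : ℕ, ∃ (Λ : Type) (_ : CommRing Λ) (_ : Finite Λ) (st : Λ →+* Λ) (au : Λ →+* F2)
    (g : Λ), LG st au g (2 ^ n)
  zero : LG i2 i2 1 (2 ^ 0) ∧ ∀ f : Co 0, cv (1 : F2) f = f 0
  add : ∀ (Λ : Type) [CommRing Λ] (N : ℕ) [NeZero N] (g : Λ) (f f' : ZMod N → F2), (2 : Λ) = 0 →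
    cv g (f + f') = cv g f + cv g f'
  one : ∀ (Λ : Type) [CommRing Λ] (N : ℕ) [NeZero N] (g : Λ) (x : F2),
    cv g (Pi.single 0 x : ZMod N → F2) = (x.val : Λ)
  map : ∀ (Λ Λ' : Type) [CommRing Λ] [CommRing Λ'] (N : ℕ) [NeZero N] (φ : Λ →+* Λ') (g : Λ)
    (f : ZMod N → F2), φ (cv g f) = cv (φ g) f
  au : ∀ (Λ : Type) [CommRing Λ] (N : ℕ) [NeZero N] (st : Λ →+* Λ) (au : Λ →+* F2) (g : Λ),
    LG st au g N → ∀ f : ZMod N → F2, au (cv g f) = ∑ k, f k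
  st : ∀ (Λ : Type) [CommRing Λ] (N : ℕ) [NeZero N] (st : Λ →+* Λ) (au : Λ →+* F2) (g : Λ),
    LG st au g N → ∀ f : ZMod N → F2, st (cv g f) = cv g fun k => f (-k)
  mul : ∀ (Λ : Type) [CommRing Λ] (N : ℕ) [NeZero N] (g : Λ), (2 : Λ) = 0 → g ^ N = 1 →
    ∀ f f' : ZMod N → F2, cv g f * cv g f' = cv g fun k => ∑ j, f j * f' (k - j)

/-- residue symbols -/
structure SQR : Prop where
  mul : ∀ (l : ℕ) (x y : ZMod l), Gd 0 l → x ≠ 0 → y ≠ 0 → qr (x * y) = qr x + qr y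
  neg : ∀ l : ℕ, Gd 0 l → qr (-1 : ZMod l) = eps l
  sg : ∀ (l : ℕ) [Fact l.Prime] (x : ZMod l), x ≠ 0 → sg (qr x) = quadraticChar (ZMod l) x
  rcp : ∀ l l' : ℕ, Gd 0 l → Gd 0 l' → l ≠ l' → lg l l' + lg l' l = eps l * eps l'
  lab : ∀ (ι : Type) [Fintype ι] [DecidableEq ι] (pr : ι → ℕ) (P : ℕ), Lab pr P →
    Squarefree (P * ∏ i, pr i) ∧ (P * ∏ i, pr i) % 8 = 5 ∧
      (P * ∏ i, pr i).primeFactors = SP pr P ∧ Gd 0 P ∧ lev P = 0 ∧ eps P = 0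
  sym : ∀ (ι : Type) [Fintype ι] [DecidableEq ι] (pr : ι → ℕ) (P : ℕ), pr.Injective →
    (∀ i, Gd 0 (pr i)) → Sym i2 i2 (Sm0 pr P) (fun i => eps (pr i)) univ

/-- formal properties of the symbol -/
structure SRA : Prop where
  add : ∀ (L : Type) [Field L] [NumberField L] (a a' b : Un L), dy (a + a') b = dy a b + dy a' b
  symm : ∀ (L : Type) [Field L] [NumberField L] (a b : Un L), dy a b = dy b a
  stb : ∀ (L : Type) [Field L] [NumberField L] (a b : Un L), a.val + b.val = 1 → dy a b = 0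
  neg : ∀ (L : Type) [Field L] [NumberField L] (a b : Un L), a.val + b.val = 0 → dy a b = 0
  qmul : ∀ (L : Type) [Field L] [NumberField L] (w : Pr L 2) (x y : L), w.1.valuation L x = 1 →
    w.1.valuation L y = 1 → qv w.1 (x * y) = qv w.1 x + qv w.1 y
  qhom : ∀ (L : Type) [Field L] [NumberField L] (w : Sp L) (l : ℕ) (ψ : 𝓞 L →+* ZMod l),
    l.Prime → w.asIdeal = RingHom.ker ψ → ∀ x : 𝓞 L, qv w (x : L) = qr (ψ x)

/-- the projection formula -/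
def SRB : Prop :=
  ∀ (F F' : Type) [Field F] [NumberField F] [Field F'] [NumberField F'] [Algebra F F'],
    Module.finrank F F' = 2 → Unr F F' 2 → IsTotallyReal F' →
    ∀ (a : Un F) (b : Un F'), dy (Un.inc F F' a) b = dy a (Un.nrm F F' b)

/-- the law of reciprocity over the rationals -/
def SRC : Prop :=
  ∀ (F : Type) [Field F] [NumberField F], Module.finrank ℚ F = 1 →
    ∀ a ∈ Ray F 2 3, ∀ b : Un F, dy a b = 0

/-- the symbol vanishes on a ray -/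
def SRD : Prop :=
  ∀ (n : ℕ) (F : Type) [Field F] [NumberField F] (θ : F) (γ : F ≃ₐ[ℚ] F), Cy F n θ γ →
    ∀ a ∈ Ray F 2 (2 * n + 3), ∀ b : Un F, dy a b = 0

/-- primary elements -/
structure SRE : Prop where
  van : ∀ (F : Type) [Field F] [NumberField F] (n : ℕ) (θ : F) (γ : F ≃ₐ[ℚ] F), Cy F n θ γ →
    ∀ a ∈ Ru F 2, ∀ b z : Un F, b - 2 • z ∈ Ray F 2 2 → dy a b = 0
  prim : ∀ (F : Type) [Field F] [NumberField F] (n : ℕ) (θ : F) (γ : F ≃ₐ[ℚ] F), Cy F n θ γ →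
    ∀ a ∈ Ru F 2, ∃ u ∈ Eu F, ∃ z : Un F, a + u - 2 • z ∈ Ray F 2 2

/-- the law of reciprocity in the layer `n` -/
def SRF : Prop :=
  ∀ (n : ℕ) (D : Dat n) (l l' : ℕ) (k : ZMod (2 ^ n)), Gd n l → Gd n l' → (l = l' → k ≠ 0) →
    D.rr l l' k + D.rr l' l (-k) = ∑ j, D.cc l (-j) * D.cc l' (k - j)

/-- existence of the data and first properties -/
structure SDAT : Prop where
  ex : ∀ n : ℕ, Nonempty (Dat n)
  nrm : ∀ (n : ℕ) (D : Dat n) (l : ℕ), Gd n l →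
    ∏ k : ZMod (2 ^ n), D.γ⁻¹ ^ k.val • D.π l = (l : 𝓞 D.F) ^ D.h
  nz : ∀ (n : ℕ) (D : Dat n) (l l' : ℕ) (k : ZMod (2 ^ n)), Gd n l → Gd n l' →
    D.φ l' (D.γ⁻¹ ^ k.val • D.π l) = 0 → l = l' ∧ k = 0
  ar : ∀ (n : ℕ) (D : Dat n) (l l' : ℕ), Gd n l → Gd n l' → l ≠ l' → ∑ k, D.rr l l' k = lg l l'
  ac : ∀ (n : ℕ) (D : Dat n) (l : ℕ), Gd n l → ∑ k, D.cc l k = eps l
  ao : ∀ (n : ℕ) (D : Dat n) (l : ℕ), ∑ k, D.ow l k = eps l

/-- the matrices of symbols over the group ring -/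
structure SSYM : Prop where
  sym : ∀ (n : ℕ) (D : Dat n) (Λ ι : Type) [CommRing Λ] [Fintype ι] [DecidableEq ι]
    (st : Λ →+* Λ) (au : Λ →+* F2) (g : Λ) (pr : ι → ℕ) (P : ℕ) (B : Finset ι),
    LG st au g (2 ^ n) → pr.Injective → (∀ i ∈ B, Gd n (pr i)) →
    Sym st au (SmN D g pr P) (fun i => cv g (D.cc (pr i))) B
  aus : ∀ (n : ℕ) (D : Dat n) (Λ ι : Type) [CommRing Λ] [Fintype ι] [DecidableEq ι]
    (st : Λ →+* Λ) (au : Λ →+* F2) (g : Λ) (pr : ι → ℕ) (P : ℕ) (i j : ι),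
    LG st au g (2 ^ n) → Gd n (pr i) → Gd n (pr j) →
    au (SmN D g pr P i j) = Sm0 pr P i j ∧ au (cv g (D.cc (pr i))) = eps (pr i)
  zero : ∀ (D : Dat 0) (S : Finset ℕ) (l l' : ℕ), Gd 0 l → Gd 0 l' →
    D.Rc S l l' 0 = R0 S l l' ∧ D.cc l 0 = eps l

/-- stable ramified classes give a solution of the relations -/
def SSOL : Prop :=
  ∀ (L : Type) [Field L] [NumberField L] (d M m : ℕ) (s θ : L) (σ γ : L ≃ₐ[ℚ] L),
    Tw L d M s θ σ γ → m + 1 ≤ M → am d < m → tt d ≤ 2 ^ m → Rm L d ⊓ Oc γ (m + 1) ≤ Oc γ m →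
    ¬Rm L d ≤ Oc γ (m + 1) →
    ∃ (O : Type) (_ : CommRing O) (_ : IsDomain O) (_ : IsDiscreteValuationRing O)
      (_ : CharZero O) (_ : Finite (IsLocalRing.ResidueField O)) (t : O), Eg t ∧
      ∀ n < m, ∀ D : Dat n, ∃ y : ℕ → O, Rel d.primeFactors n (D.Rc d.primeFactors) D.cc t y

/-- reduction of the relations modulo the maximal ideal -/
structure SV1 : Prop where
  mp : ∀ (O : Type) [CommRing O] [IsDomain O] [IsDiscreteValuationRing O]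
    [Finite (IsLocalRing.ResidueField O)] (s : O), ¬IsUnit (2 : O) →
    ∃ q : ℤ[X], q.Monic ∧ Irreducible (q.map (Int.castRingHom F2)) ∧ ¬IsUnit (aeval s q)
  hit : ∀ (O ι : Type) [CommRing O] [IsDomain O] [IsDiscreteValuationRing O] [CharZero O]
    [Fintype ι] [DecidableEq ι] (pr : ι → ℕ) (P a f : ℕ) (R : ℕ → ℕ → Co 0) (c : ℕ → Co 0)
    (t s : O) (y : ℕ → O) (q : ℤ[X]), Lab pr P → Eg t → Lv t a → om a t = 2 * s →
    Rel (SP pr P) 0 R c t y → (∀ l ∈ SP pr P, ∀ l' ∈ SP pr P, R l l' 0 = R0 (SP pr P) l l') →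
    (∀ l ∈ SP pr P, c l 0 = eps l) → q.Monic → Irreducible (q.map (Int.castRingHom F2)) →
    ¬IsUnit (aeval s q) → f ≤ q.natDegree →
    BadL (fun i => lev (pr i)) (fun i => eps (pr i)) (Sm0 pr P) a f

/-- reduction of the relations modulo a power of the eigenvalue -/
def SV2 : Prop :=
  ∀ (O ι Λ : Type) [CommRing O] [IsDomain O] [IsDiscreteValuationRing O] [CharZero O]
    [Finite (IsLocalRing.ResidueField O)] [Fintype ι] [DecidableEq ι] [CommRing Λ]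
    (st : Λ →+* Λ) (au : Λ →+* F2) (g : Λ) (pr : ι → ℕ) (P a f n : ℕ) (R : ℕ → ℕ → Co n)
    (c : ℕ → Co n) (t s : O) (y : ℕ → O) (q : ℤ[X]), LG st au g (2 ^ n) → Lab pr P → Eg t →
    Lv t a → om a t = 2 * s → n + 3 ≤ a → Rel (SP pr P) n R c t y → q.Monic →
    Irreducible (q.map (Int.castRingHom F2)) → ¬IsUnit (aeval s q) → q.natDegree ≤ f →
    BadN au (g - 1) (2 ^ n) f (fun i => lev (pr i)) (fun i => cv g (c (pr i)))
        (fun i j => cv g (R (pr i) (pr j))) a false ∨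
      BadN au (g - 1) (2 ^ n) f (fun i => lev (pr i)) (fun i => cv g (c (pr i)))
        (fun i j => cv g (R (pr i) (pr j))) (a - 1) true

/-- the criterion -/
def SCRIT : Prop :=
  ∀ (ι : Type) [Fintype ι] [DecidableEq ι] (pr : ι → ℕ) (P : ℕ), Lab pr P →
    ¬Green2 (kD (P * ∏ i, pr i)) →
    ∃ a, BadL (fun i => lev (pr i)) (fun i => eps (pr i)) (Sm0 pr P) a 1 ∧
      ∀ (n f : ℕ) (D : Dat n) (Λ : Type) [CommRing Λ] (st : Λ →+* Λ) (au : Λ →+* F2) (g : Λ),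
        LG st au g (2 ^ n) → n + 3 ≤ a →
        BadL (fun i => lev (pr i)) (fun i => eps (pr i)) (Sm0 pr P) a (f + 1) ∨
        BadN au (g - 1) (2 ^ n) f (fun i => lev (pr i)) (fun i => cv g (D.cc (pr i)))
          (SmN D g pr P) a false ∨
        BadN au (g - 1) (2 ^ n) f (fun i => lev (pr i)) (fun i => cv g (D.cc (pr i)))
          (SmN D g pr P) (a - 1) true

def OfDEC : Prop := SCY → SDEC
def OfUN : Prop := SCY → SUN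
def OfODD : Prop := SCY → SUN → SODD
def OfTW : Prop := SCY → SDEC → STW
def OfTP : Prop := SCY → SDEC → STW → STP
def OfAMB : Prop := SCY → SODD → STW → STP → SAMB
def OfHERB : Prop := SCY → SUN → STW → STP → SAMB → SHERB
def OfCAP : Prop := STW → STP → SAMB → SHERB → SCAP
def OfHN : Prop := SCY → SDEC → STW → STP → SHN
def OfHALF : Prop := STW → STP → SAMB → SHN → SHALF
def OfSIGN : Prop := SQR → STW → STP → SSIGN
def OfBR : Prop := SCY → STW → STP → SBR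
def OfGR : Prop := STW → STP → SAMB → SCAP → SBND → SBR → SGR
def OfQR : Prop := SDEC → SQR
def OfRB : Prop := SRA → SRB
def OfRC : Prop := SQR → SRA → SRC
def OfRD : Prop := SCY → SRA → SRB → SRC → SRD
def OfRE : Prop := SCY → SUN → SRA → SRD → SRE
def OfRF : Prop := SCY → SDEC → SUN → SQR → SRA → SRE → SDAT → SRF
def OfDAT : Prop := SCY → SDEC → SUN → SODD → SQR → SDAT
def OfSYM : Prop := SLAM → SRF → SDAT → SSYM
def OfSOL : Prop :=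
  SQR → SLAM → STW → STP → SAMB → SCAP → SHN → SHALF → SSIGN → SEIG → SDAT → SSOL
def OfV1 : Prop := SQR → SLAM → SV1
def OfV2 : Prop := SQR → SLAM → SV2
def OfCRIT : Prop := SQR → SGR → SSOL → SDAT → SSYM → SV1 → SV2 → SCRIT

end Pool.Agent.MP_1246c0_nt.H12
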