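import Pool.Agent.MP_1246c0_nt.H12.SpecA

/-! The analytic part: definitions and statements of the pieces. -/

namespace Pool.Agent.MP_1246c0_nt.H12

open NumberField Finset Filter Topology
open Pool.Agent.MP_1246c0_nt.H55 (Fund kD)

/-! ### Bilinear forms -/

/-- elements with small coordinates -/
def Box {R : Type} [CommRing R] {N : ℕ} (e : Fin N → R) (L : ℕ) : Set R :=
  {x | ∃ a : Fin N → ℤ, (∀ j, |a j| ≤ L) ∧ x = ∑ j, a j • e j}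

/-- boxes multiply -/
structure Kit {R : Type} [CommRing R] {N : ℕ} (e : Fin N → R) (κ : ℕ) : Prop where
  pos : 1 ≤ κ
  one : 1 ∈ Box e 1
  mul : ∀ (L L' : ℕ) x y, x ∈ Box e L → y ∈ Box e L' → x * y ∈ Box e (κ * L * L')

/-- a nontrivial character modulo `p` -/
structure Chr {R : Type} [CommRing R] {N : ℕ} (e : Fin N → R) (χ : R → ℝ) (p : ℕ) : Prop where
  mul : ∀ x y, χ (x * y) = χ x * χ y
  abs : ∀ x, |χ x| ≤ 1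
  per : ∀ x y, χ (x + p * y) = χ x
  zero : ∑ a : Fin N → Fin p, χ (∑ j, ((a j : ℕ) : ℤ) • e j) = 0

/-- the elements `α p` are told apart by their norms -/
def Sep {R : Type} [CommRing R] (nm : R →* ℤ) (α : ℕ → R) (A : Finset ℕ) : Prop :=
  ∀ p ∈ A, p.Prime ∧ (p : ℤ) ∣ nm (α p) ∧ ∀ q ∈ A, (q : ℤ) ∣ nm (α p) → q = p

/-- cancellation in bilinear sums of symbols -/
def Bil {κ : Type} (b : ℕ → ℕ → κ → F2) (ok : ℕ → Prop) (Y T : ℕ) (δ : ℝ) : Prop :=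
  ∀ s : Finset κ, s.Nonempty → ∀ u v : ℕ → ℝ, (∀ p, |u p| ≤ 1) → (∀ p, |v p| ≤ 1) →
    (∀ p, u p ≠ 0 → ok p ∧ Y < p) → (∀ p, v p ≠ 0 → ok p ∧ Y < p) → ∀ T' ≤ T,
    |∑ p ∈ range (T' + 1), ∑ p' ∈ range (T' + 1),
      if p * p' ≤ T' ∧ p ≠ p' then u p * v p' * sg (∑ k ∈ s, b p p' k) else 0| ≤ δ * T'

/-- the saving -/
noncomputable def dl (C N Y T : ℕ) : ℝ :=
  2 ^ (C * N ^ 5) * (Real.log T + 2) ^ 2 / (Y : ℝ) ^ (1 / (16 * N) : ℝ)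

/-! ### Sums over tuples -/

open Classical in
/-- weighted sum over injective tuples with bounded product -/
noncomputable def TS0 {ι : Type} [Fintype ι] [DecidableEq ι] (T : ℕ) (w : ι → ℕ → ℝ)
    (Ψ : (ι → ℕ) → ℝ) : ℝ :=
  ∑ p ∈ Fintype.piFinset fun _ : ι => range (T + 1),
    if Function.Injective p ∧ ∏ i, p i ≤ T then (∏ i, w i (p i)) * Ψ p else 0

/-- the same with one distinguished variable -/
noncomputable def TS (m T : ℕ) (wb wP : ℕ → ℝ) (Ψ : (Fin m → ℕ) → ℕ → ℝ) : ℝ :=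
  TS0 (ι := Option (Fin m)) T (fun i => i.elim wP fun _ => wb)
    fun p => Ψ (fun i => p (some i)) (p none)

/-- functions supported on `K` -/
def Sup {α : Type} (K : Finset α) : AddSubgroup (α → F2) where
  carrier := {ρ | ∀ q, q ∉ K → ρ q = 0}
  zero_mem' := fun _ _ => rfl
  add_mem' := fun hx hy q hq => by rw [Pi.add_apply, hx q hq, hy q hq, add_zero]
  neg_mem' := fun hx q hq => by rw [Pi.neg_apply, hx q hq, neg_zero]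

/-- the symbols of a tuple at the positions in `K` -/
def rho {ι κ : Type} [DecidableEq ι] [DecidableEq κ] (K : Finset (ι × ι × κ))
    (b : ι → ι → ℕ → ℕ → κ → F2) (p : ι → ℕ) : ι × ι × κ → F2 :=
  fun q => if q ∈ K then b q.1 q.2.1 (p q.1) (p q.2.1) q.2.2 else 0

/-- the labelling by small and big primes -/
def prs (Sg : Finset ℕ) {m : ℕ} (p : Fin m → ℕ) : Sg ⊕ Fin m → ℕ := Sum.elim Subtype.val p

/-- the big indices -/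
def BB (Sg : Finset ℕ) (m : ℕ) : Finset (Sg ⊕ Fin m) := univ.filter fun i => i.isRight

/-- the entries outside the big block -/
def crs {ι R : Type} [DecidableEq ι] [Zero R] (B : Finset ι) (S : Matrix ι ι R) : Matrix ι ι R :=
  fun i j => if i ∈ B ∧ j ∈ B then 0 else S i j

/-- the entries of level at least `a` -/
def act {ι R : Type} [Zero R] (a : ℕ) (lv : ι → ℕ) (S : Matrix ι ι R) : Matrix ι ι R :=
  fun i j => if a ≤ lv i ∧ a ≤ lv j then S i j else 0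

/-- admissible weights -/
def Wt (Sg : Finset ℕ) (Y : ℕ) (w : ℕ → ℝ) : Prop :=
  ∀ p, 0 ≤ w p ∧ w p ≤ 1 ∧ (w p ≠ 0 → Gd 0 p ∧ Y < p ∧ p ∉ Sg)

/-- the error term of the equidistribution estimate, divided by `δ T` -/
noncomputable def EE (N z m T : ℕ) : ℝ :=
  ((2 * Real.log T + 8) ^ 2 * 2 ^ ((N + 1) * (2 * z + m + 4))) ^ (m + 1)

/-! ### Sums over primes -/

/-- the power `p ^ (-1 - σ)` -/
noncomputable def pw (σ : ℝ) (p : ℕ) : ℝ := (p : ℝ) ^ (-1 - σ)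

open Classical in
/-- sum over the primes with a property -/
noncomputable def SP' (Q : ℕ → Prop) (f : ℕ → ℝ) : ℝ := ∑' p : ℕ, if p.Prime ∧ Q p then f p else 0

/-- weighted sum over pairs of disjoint sets -/
noncomputable def PS (U : Finset ℕ) (a b : ℕ → ℝ) (F : Finset ℕ → Finset ℕ → ℝ) : ℝ :=
  ∑ Sg ∈ U.powerset, ∑ B ∈ (U \ Sg).powerset, (∏ p ∈ Sg, a p) * (∏ p ∈ B, b p) * F Sg B

/-- the part of the conditions that does not mention the top prime -/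
structure NiceT (Sg B : Finset ℕ) (tp j0 : ℕ) : Prop where
  cnt : ∀ a ≤ tp, ∀ ε : F2, 2 ^ jj tp j0 a ≤ (B.filter fun l => lev l = a ∧ eps l = ε).card ∧
    (B.filter fun l => lev l = a ∧ eps l = ε).card ≤ 2 ^ (2 * jj tp j0 a)
  low : ∀ l ∈ Sg, lev l ≤ tp / 2
  sml : Sg.card ≤ xx tp j0 (tp / 2 + 1)
  det : ∀ W ⊆ Sg, W.Nonempty → ∃ l ∈ B, tp / 2 < lev l ∧ eps l = 0 ∧ ∑ l' ∈ W, lg l l' = 1
  ev : Even ((Sg ∪ B).filter fun l => lev l = 0).card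

/-- good pairs of sets of primes -/
structure NiceS (Sg B : Finset ℕ) (tp j0 : ℕ) : Prop extends NiceT Sg B tp j0 where
  top : ∃ q ∈ B, tp < lev q ∧ eps q = 1 ∧ ∀ l ∈ B, tp < lev l → l = q
  es : ∑ l ∈ Sg ∪ B, eps l = 0

/-- hypotheses on the masses -/
structure Hyp (U : Finset ℕ) (a b : ℕ → ℝ) (tp j0 : ℕ) (m0 D0 R : ℝ) : Prop where
  odd : ∀ p ∈ U, Gd 0 p
  wt : ∀ p ∈ U, 0 ≤ a p ∧ 0 ≤ b p ∧ a p + b p ≤ 1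
  low : ∀ p ∈ U, a p ≠ 0 → lev p ≤ tp / 2
  cls : ∀ i ≤ tp, ∀ ε : F2, 4 * 2 ^ jj tp j0 i ≤ ∑ p ∈ U.filter fun l => lev l = i ∧ eps l = ε, b p ∧
    ∑ p ∈ U.filter fun l => lev l = i ∧ eps l = ε, b p ≤ 32 * 2 ^ jj tp j0 i
  sa : 100 * ∑ p ∈ U, a p ≤ xx tp j0 (tp / 2 + 1)
  sb : 100 * ∑ p ∈ U, b p ≤ m0
  la : 100 * ∑ p ∈ U, a p * Real.log p ≤ D0
  lb : 100 * ∑ p ∈ U, (a p + b p) * Real.log p ≤ R
  det : ∀ W ⊆ U, W.Nonempty → ∑ l ∈ W, Real.log l ≤ D0 → 20 * ∑ p ∈ U, a p + 20 ≤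
    ∑ p ∈ (U \ W).filter fun l => tp / 2 < lev l ∧ eps l = 0 ∧ ∑ l' ∈ W, lg l l' = 1, b p

/-! ### Parameters -/

/-- the iterated logarithm -/
noncomputable def ll (X : ℕ) : ℝ := Real.log (Real.log X)

noncomputable def s1 (X : ℕ) : ℝ := 1000 / Real.log X

noncomputable def s2 (X : ℕ) : ℝ := 1 / ll X ^ 6

/-- lower bound for the big primes -/
noncomputable def YY (X : ℕ) : ℕ := ⌈Real.exp (ll X ^ 5)⌉₊

/-- the top level -/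
noncomputable def tpX (X j0 : ℕ) : ℕ := Nat.log 2 ⌊ll X⌋₊ - (j0 + 5)

/-- bound for the number of big primes -/
noncomputable def mX (X : ℕ) : ℕ := ⌊300 * ll X⌋₊

/-- weights of small primes -/
noncomputable def ws (X j0 p : ℕ) : ℝ := if lev p ≤ tpX X j0 / 2 then (p : ℝ) ^ (-s2 X) else 0

/-- weights of big primes -/
noncomputable def wb (X p : ℕ) : ℝ := if YY X < p then (p : ℝ) ^ (-s1 X) - (p : ℝ) ^ (-s2 X) else 0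

/-- odd primes up to `X` -/
def OP (X : ℕ) : Finset ℕ := (range (X + 1)).filter fun p => p.Prime ∧ p ≠ 2

/-- primes of level at most the top level -/
noncomputable def PP (X j0 : ℕ) : Finset ℕ :=
  (OP ⌊Real.exp (ll X * Real.log X)⌋₊).filter fun p => lev p ≤ tpX X j0

/-- candidates for the top prime -/
noncomputable def TQ (X j0 : ℕ) : Finset ℕ :=
  (OP X).filter fun q => tpX X j0 < lev q ∧ eps q = 1 ∧ q ^ 6 ≤ X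

/-- a weight restricted to odd primes outside `Sg` -/
noncomputable def wr (Sg : Finset ℕ) (w : ℕ → ℝ) (p : ℕ) : ℝ :=
  if p.Prime ∧ p ≠ 2 ∧ p ∉ Sg then w p else 0

/-- the weight of the large prime -/
noncomputable def wP (X P : ℕ) : ℝ := if P % 8 = 5 ∧ X < P ^ 2 then 1 else 0

/-- the sum over all configurations -/
noncomputable def CS (X z m0 : ℕ) (a b : ℕ → ℝ)
    (Ψ : ∀ (Sg : Finset ℕ) (m : ℕ), (Fin m → ℕ) → ℕ → ℝ) : ℝ :=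
  ∑ Sg ∈ (OP X).powerset.filter fun Sg => Sg.card ≤ z, (∏ p ∈ Sg, a p) *
    ∑ m ∈ range (m0 + 1), 1 / (m.factorial : ℝ) *
      TS m (X / ∏ p ∈ Sg, p) (wr Sg b) (wr Sg (wP X)) (Ψ Sg m)

/-! ### Statements -/

/-- amplification -/
def SAMP : Prop :=
  ∀ (R : Type) [CommRing R] (N : ℕ) (e : Fin N → R) (κ : ℕ) (nm : R →* ℤ) (α : ℕ → R)
    (χ : ℕ → R → ℝ) (A A' : Finset ℕ) (u v : ℕ → ℝ) (L M' k W : ℕ), Kit e κ → Sep nm α A →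
    (∀ p ∈ A, α p ∈ Box e L) → (∀ p ∈ A', p.Prime ∧ p ≤ M' ∧ Chr e (χ p) p) →
    (∀ p, |u p| ≤ 1) → (∀ p, |v p| ≤ 1) → 1 ≤ k → 2 * (κ * L) ^ k + 1 ≤ W → M' ^ 3 ≤ W →
    |∑ p ∈ A, ∑ p' ∈ A', u p * v p' * χ p' (α p)| ^ (2 * k) ≤
      (M' : ℝ) ^ (2 * k - 1) * (A.card : ℝ) ^ k * (k : ℝ) ^ k * (N + 1) * (W : ℝ) ^ N

/-- rectangles -/
def SRECT : Prop :=
  ∀ (R : Type) [CommRing R] (N : ℕ) (e : Fin N → R) (κ : ℕ) (nm : R →* ℤ) (α : ℕ → R)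
    (χ : ℕ → R → ℝ) (A A' : Finset ℕ) (u v : ℕ → ℝ) (M M' Y : ℕ), 1 ≤ N → 1 ≤ Y → Kit e κ →
    Sep nm α A → (∀ p ∈ A, Y < p ∧ p ≤ M ∧ ∃ L, α p ∈ Box e L ∧ L ^ N ≤ p) →
    (∀ p ∈ A', p.Prime ∧ Y < p ∧ p ≤ M' ∧ Chr e (χ p) p) → (∀ p, |u p| ≤ 1) → (∀ p, |v p| ≤ 1) →
    |∑ p ∈ A, ∑ p' ∈ A', u p * v p' * χ p' (α p)| ≤
      (100 * κ : ℝ) ^ N * (Real.log M' + 2) / (Y : ℝ) ^ (1 / (8 * N) : ℝ) * M * M'

/-- from rectangles to the hyperbola -/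
def SHYP : Prop :=
  ∀ (f : ℕ → ℕ → ℝ) (Y T : ℕ) (δ : ℝ), (∀ p p', |f p p'| ≤ 1) →
    (∀ p p', f p p' ≠ 0 → Y < p ∧ Y < p') → 1 ≤ δ * Y →
    (∀ M ≤ T, ∀ M' ≤ T, ∀ A ⊆ range (M + 1),
      |∑ p ∈ A, ∑ p' ∈ range (M' + 1), f p p'| ≤ δ ^ 2 * M * M') →
    |∑ p ∈ range (T + 1), ∑ p' ∈ range (T + 1), if p * p' ≤ T then f p p' else 0| ≤
      100 * δ * T * (Real.log T + 2)

/-- short vectors and characters -/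
def SSH1 : Prop :=
  ∀ (n : ℕ) (D : Dat n), ∃ (e : Fin (2 ^ n) → 𝓞 D.F) (κ : ℕ) (α : ℕ → 𝓞 D.F),
    Kit e κ ∧ κ ≤ 2 ^ (10 * (2 ^ n) ^ 2) ∧
    (∀ p, Gd n p → D.φ p (α p) = 0 ∧ α p ≠ 0 ∧
      |Algebra.norm ℤ (α p)| ≤ 2 ^ (3 * (2 ^ n) ^ 2) * p ∧ ∃ L, α p ∈ Box e L ∧ L ^ 2 ^ n ≤ p) ∧
    (∀ (p : ℕ) (k : ZMod (2 ^ n)) (x : 𝓞 D.F), Gd n p → D.φ p (D.γ⁻¹ ^ k.val • x) = 0 →
      (p : ℤ) ∣ Algebra.norm ℤ x) ∧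
    ∀ s : Finset (ZMod (2 ^ n)), s.Nonempty → ∃ χ : ℕ → 𝓞 D.F → ℝ, ∀ p, Gd n p → Chr e (χ p) p ∧
      ∀ x, (∀ k : ZMod (2 ^ n), D.φ p (D.γ⁻¹ ^ k.val • x) ≠ 0) → χ p x = sg (∑ k ∈ s, D.sy p x k)

/-- few classes -/
def SSH2 : Prop :=
  ∀ (n : ℕ) (D : Dat n) (K : ℕ) (α : ℕ → 𝓞 D.F), 1 ≤ K →
    (∀ p, Gd n p → D.φ p (α p) = 0 ∧ α p ≠ 0 ∧ |Algebra.norm ℤ (α p)| ≤ K * p) →
    ∃ (T : ℕ) (τ : ℕ → Fin T) (t : Fin T → ℕ → Co n), T ≤ 2 ^ 2 ^ n * K ^ ((2 ^ n) ^ 2 + 1) ∧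
      ∀ p p', Gd n p → Gd n p' → K < p' → p ≠ p' → D.rr p p' = D.sy p' (α p) + t (τ p) p'

/-- the bilinear estimate -/
def SBIL : Prop :=
  ∃ C : ℕ, ∀ (n : ℕ) (D : Dat n) (Y T : ℕ), 1 ≤ Y → Bil D.rr (Gd n) Y T (dl C (2 ^ n) Y T)

/-- the uniformity lemma -/
def SUL : Prop :=
  ∀ (ι κ : Type) [Fintype ι] [DecidableEq ι] [Fintype κ] [DecidableEq κ] (K : Finset (ι × ι × κ))
    (b : ι → ι → ℕ → ℕ → κ → F2) (w : ι → ℕ → ℝ) (T : ℕ) (δ : ℝ) (Φ : (ι × ι × κ → F2) → ℝ),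
    0 ≤ δ → (∀ i p, |w i p| ≤ 1) → (∀ i, w i 0 = 0) → (∀ ρ, |Φ ρ| ≤ 1) →
    (∀ i j k, (i, j, k) ∈ K → i ≠ j ∧ ∀ k', (j, i, k') ∉ K) →
    (∀ i j (s : Finset κ), s.Nonempty → (∀ k ∈ s, (i, j, k) ∈ K) → ∀ u v : ℕ → ℝ,
      (∀ p, |u p| ≤ |w i p|) → (∀ p, |v p| ≤ |w j p|) → ∀ T' ≤ T,
      |∑ p ∈ range (T' + 1), ∑ p' ∈ range (T' + 1),
        if p * p' ≤ T' ∧ p ≠ p' then u p * v p' * sg (∑ k ∈ s, b i j p p' k) else 0| ≤ δ * T') →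
    |TS0 T w fun p => Φ (rho K b p) - Ex (Sup K) Φ| ≤
      2 ^ K.card * δ * T * (Real.log T + 2) ^ Fintype.card ι

/-- equidistribution of the matrices of symbols -/
def SEQ : Prop :=
  ∀ (n : ℕ) (D : Dat n) (Λ : Type) [CommRing Λ] [Finite Λ] (st : Λ →+* Λ) (au : Λ →+* F2) (g : Λ)
    (Sg : Finset ℕ) (m T Y a : ℕ) (w w' : ℕ → ℝ) (δ : ℝ)
    (Φ : (Sg ⊕ Fin m → ℕ) → (Sg ⊕ Fin m → F2) → Matrix (Sg ⊕ Fin m) (Sg ⊕ Fin m) F2 →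
      (Sg ⊕ Fin m → Λ) → Matrix (Sg ⊕ Fin m) (Sg ⊕ Fin m) Λ → ℝ),
    LG st au g (2 ^ n) → (∀ l ∈ Sg, Gd 0 l) → n ≤ a → Wt Sg Y w → Wt Sg Y w' → 0 ≤ δ →
    Bil D.rr (Gd n) Y T δ → Bil (fun p p' (_ : Unit) => lg p p') (Gd 0) Y T δ →
    (∀ lv e S c M, |Φ lv e S c M| ≤ 1) →
    |TS m T w w' fun p P =>
      Φ (fun i => lev (prs Sg p i)) (fun i => eps (prs Sg p i)) (crs (BB Sg m) (Sm0 (prs Sg p) P))
          (fun i => cv g (D.cc (prs Sg p i)))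
          (act a (fun i => lev (prs Sg p i)) (SmN D g (prs Sg p) P)) -
        Ex (Hs st ((BB Sg m).filter fun i => a ≤ lev (prs Sg p i))
            ((BB Sg m).filter fun i => a ≤ lev (prs Sg p i))) fun H =>
          Φ (fun i => lev (prs Sg p i)) (fun i => eps (prs Sg p i))
            (crs (BB Sg m) (Sm0 (prs Sg p) P)) (fun i => cv g (D.cc (prs Sg p i)))
            (act a (fun i => lev (prs Sg p i)) (SmN D g (prs Sg p) P) + H)| ≤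
      δ * T * EE (2 ^ n) Sg.card m T

open Classical in
/-- logarithmic derivatives for moduli that are powers of two -/
def SLOG : Prop :=
  ∃ C : ℝ, ∀ (k : ℕ) (ψ : DirichletCharacter ℂ (2 ^ k)) (σ : ℝ), 1 ≤ k → 0 < σ → σ ≤ 1 →
    ‖(∑' p : ℕ, if p.Prime then ψ p * ((Real.log p * pw σ p : ℝ) : ℂ) else 0) -
      if ψ = 1 then ((1 / σ : ℝ) : ℂ) else 0‖ ≤ C * (k + 1) ^ 10

/-- masses of residue classes -/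
def SMASS : Prop :=
  ∃ C : ℝ, 0 ≤ C ∧ ∀ σ : ℝ, 0 < σ → σ ≤ 1 →
    Summable (fun p : ℕ => Real.log p * pw σ p) ∧ Summable (pw σ) ∧
    SP' (fun _ => True) (fun p => Real.log p * pw σ p) ≤ 1 / σ + C ∧
    |SP' (fun _ => True) (pw σ) - Real.log (1 / σ)| ≤ C ∧
    (∀ (k b : ℕ) (σ' : ℝ), 1 ≤ k → Odd b → b < 2 ^ k → σ ≤ σ' → σ' ≤ 1 →
      |SP' (fun p => p % 2 ^ k = b) (fun p => pw σ p - pw σ' p) - 2 / 2 ^ k * Real.log (σ' / σ)| ≤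
        C * (k + 1) ^ 10 * σ') ∧
    ∀ k : ℕ, 2 ≤ k → Real.log (1 / σ) ≤ 2 ^ k →
      SP' (fun p => p % 2 ^ k = 1 ∨ p % 2 ^ k = 2 ^ k - 1) (pw σ) ≤ C

/-- upper bound for the real part of a prime sum -/
def SCHI : Prop :=
  ∃ C : ℝ, ∀ (q : ℕ) (f : ℕ → ℂ) (σ : ℝ), 1 ≤ q → f 1 = 1 → (∀ a b, f (a * b) = f a * f b) →
    (∀ a, ‖f a‖ ≤ 1) → (∀ a, f (a + q) = f a) → ∑ a ∈ range q, f a = 0 → 0 < σ → σ ≤ 1 →
    (∑' p : ℕ, if p.Prime then f p * (pw σ p : ℂ) else 0).re ≤ Real.log (5 + Real.log q) + C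

/-- the mass of the primes that detect a set of small primes -/
def SDET : Prop :=
  ∃ C : ℝ, 0 ≤ C ∧ ∀ (k : ℕ) (W : Finset ℕ) (σ σ' : ℝ), 1 ≤ k → W.Nonempty → (∀ l ∈ W, Gd 0 l) →
    0 < σ → σ ≤ σ' → σ' ≤ 1 →
    1 / 2 ^ k * Real.log (σ' / σ) - C * ((k + 1) ^ 10 * σ' +
        Real.log (5 + k + ∑ l ∈ W, Real.log l) + Real.log (1 / σ') + 1 + σ' * W.card) ≤
      SP' (fun p => p % 2 ^ k = 1 ∧ p ∉ W ∧ ∑ l ∈ W, lg p l = 1) fun p => pw σ p - pw σ' p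

/-- primes that are five modulo eight -/
def SPC : Prop :=
  ∃ c : ℝ, 0 < c ∧ ∃ y0 : ℕ, ∀ y : ℕ, y0 ≤ y → c * y / Real.log y ≤
    ((range (y + 1)).filter fun P => P.Prime ∧ P % 8 = 5 ∧ y < 2 * P).card

/-- product measures -/
structure SPM : Prop where
  mul : ∀ (U : Finset ℕ) (a b f g h : ℕ → ℝ),
    PS U a b (fun Sg B => ∏ p ∈ U, if p ∈ Sg then f p else if p ∈ B then g p else h p) =
      ∏ p ∈ U, (h p + a p * f p + b p * g p)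
  mono : ∀ (U : Finset ℕ) (a b : ℕ → ℝ) (F G : Finset ℕ → Finset ℕ → ℝ),
    (∀ p ∈ U, 0 ≤ a p ∧ 0 ≤ b p) →
    (∀ Sg ⊆ U, ∀ B ⊆ U \ Sg, (∀ p ∈ Sg, a p ≠ 0) → (∀ p ∈ B, b p ≠ 0) → F Sg B ≤ G Sg B) →
    PS U a b F ≤ PS U a b G
  add : ∀ (U : Finset ℕ) (a b : ℕ → ℝ) (F G : Finset ℕ → Finset ℕ → ℝ),
    PS U a b (fun Sg B => F Sg B + G Sg B) = PS U a b F + PS U a b G
  cmul : ∀ (U : Finset ℕ) (a b : ℕ → ℝ) (c : ℝ) (F : Finset ℕ → Finset ℕ → ℝ),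
    PS U a b (fun Sg B => c * F Sg B) = c * PS U a b F
  sum : ∀ (κ : Type) (s : Finset κ) (U : Finset ℕ) (a b : ℕ → ℝ)
    (F : κ → Finset ℕ → Finset ℕ → ℝ),
    PS U a b (fun Sg B => ∑ i ∈ s, F i Sg B) = ∑ i ∈ s, PS U a b (F i)
  one : ∀ (U : Finset ℕ) (a b : ℕ → ℝ), PS U a b (fun _ _ => 1) = ∏ p ∈ U, (1 + a p + b p)
  markov : ∀ (U : Finset ℕ) (a b f g : ℕ → ℝ) (t : ℝ), (∀ p ∈ U, 0 ≤ a p ∧ 0 ≤ b p) →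
    (∀ p ∈ U, 0 ≤ f p ∧ 0 ≤ g p) →
    t * PS U a b (fun Sg B => ind (t < ∑ p ∈ Sg, f p + ∑ p ∈ B, g p)) ≤
      (∏ p ∈ U, (1 + a p + b p)) * ∑ p ∈ U, (a p * f p + b p * g p)
  cheb : ∀ (U V : Finset ℕ) (a b : ℕ → ℝ), (∀ p ∈ U, 0 ≤ a p ∧ 0 ≤ b p) → V ⊆ U →
    PS U a b (fun _ B => (((B ∩ V).card : ℝ) - ∑ p ∈ V, b p / (1 + a p + b p)) ^ 2) ≤
      (∏ p ∈ U, (1 + a p + b p)) * ∑ p ∈ V, b p / (1 + a p + b p)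
  miss : ∀ (U W V : Finset ℕ) (a b : ℕ → ℝ), (∀ p ∈ U, 0 ≤ a p ∧ 0 ≤ b p ∧ a p + b p ≤ 1) →
    W ⊆ U → V ⊆ U \ W → PS U a b (fun Sg B => ind (W ⊆ Sg ∧ Disjoint B V)) ≤
      (∏ p ∈ U, (1 + a p + b p)) * (∏ p ∈ W, a p) * Real.exp (-(∑ p ∈ V, b p) / 2)
  chr : ∀ (U V : Finset ℕ) (a b : ℕ → ℝ) (ψ : ℕ → F2),
    (∀ p ∈ U, 0 ≤ a p ∧ 0 ≤ b p ∧ a p + b p ≤ 1) → V ⊆ U → (∀ p ∈ V, ψ p = 1) →
    |PS U a b fun Sg B => sg (∑ p ∈ Sg ∪ B, ψ p)| ≤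
      (∏ p ∈ U, (1 + a p + b p)) * Real.exp (-∑ p ∈ V, b p)

/-- good configurations have positive probability -/
def SNA : Prop :=
  ∀ (U : Finset ℕ) (a b : ℕ → ℝ) (tp j0 : ℕ) (m0 D0 R : ℝ), Hyp U a b tp j0 m0 D0 R → 20 ≤ j0 →
    (∏ p ∈ U, (1 + a p + b p)) / 10 ≤ PS U a b fun Sg B => ind (NiceT Sg B tp j0 ∧
      ∑ l ∈ Sg ∪ B, eps l = 1 ∧ (B.card : ℝ) ≤ m0 ∧ ∑ l ∈ Sg ∪ B, Real.log l ≤ R)

/-- the size of the parameters -/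
def SPRM : Prop :=
  ∀ (j0 : ℕ) (K : ℝ), ∀ᶠ X : ℕ in atTop, K ≤ ll X ∧ 0 < s1 X ∧ s1 X ≤ s2 X ∧ s2 X ≤ 1 ∧
    (2 : ℝ) ^ (tpX X j0 + j0 + 5) ≤ ll X ∧ ll X < 2 ^ (tpX X j0 + j0 + 6) ∧ K ≤ tpX X j0 ∧
    9 / 10 * ll X ≤ Real.log (s2 X / s1 X) ∧ Real.log (s2 X / s1 X) ≤ ll X ∧
    K * ((tpX X j0 : ℝ) + 10) ^ 10 * s2 X ≤ 1 ∧ K * (Real.log (YY X) + 1) * s2 X ≤ 1 ∧
    K * (Real.log (ll X) + 1) ≤ xx (tpX X j0) j0 (tpX X j0 / 2 + 1) ∧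
    K * (Real.log (ll X) + 1) * 2 ^ (tpX X j0 / 2) ≤ ll X ∧
    6 * Real.log (ll X) ≤ 2 ^ (tpX X j0 / 2 + 3) ∧ YY X ^ 2 ≤ X ∧ 1 ≤ YY X

/-- truncation of the prime sums -/
def STR : Prop :=
  ∀ ε : ℝ, 0 < ε → ∀ᶠ X : ℕ in atTop, ∀ (Q : ℕ → Prop) [DecidablePred Q], ¬Q 2 →
    ∑ p ∈ (OP ⌊Real.exp (ll X * Real.log X)⌋₊).filter Q, wb X p / p ≤
      SP' Q (fun p => pw (s1 X) p - pw (s2 X) p) ∧
    SP' Q (fun p => pw (s1 X) p - pw (s2 X) p) - ε ≤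
      ∑ p ∈ (OP ⌊Real.exp (ll X * Real.log X)⌋₊).filter Q, wb X p / p ∧
    ∑ p ∈ (OP ⌊Real.exp (ll X * Real.log X)⌋₊).filter Q, pw (s2 X) p ≤ SP' Q (pw (s2 X)) ∧
    SP' Q (pw (s2 X)) - ε ≤ ∑ p ∈ (OP ⌊Real.exp (ll X * Real.log X)⌋₊).filter Q, pw (s2 X) p

/-- the masses for the chosen parameters -/
def SNB : Prop :=
  ∀ j0 : ℕ, ∀ᶠ X : ℕ in atTop,
    Hyp (PP X j0) (fun p => ws X j0 p / p) (fun p => wb X p / p) (tpX X j0) j0 (200 * ll X)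
      (200 * ll X ^ 6) (Real.log X / 6)

/-- the total mass and the mass of the top class -/
def SNC : Prop :=
  ∀ j0 : ℕ, ∃ c : ℝ, 0 < c ∧ ∀ᶠ X : ℕ in atTop,
    c * Real.log X ≤ ∏ p ∈ PP X j0, (1 + ws X j0 p / p + wb X p / p) ∧
    1 ≤ ∑ q ∈ TQ X j0, wb X q / q

/-- the main term -/
def SMAIN : Prop :=
  ∀ j0 : ℕ, 20 ≤ j0 → ∃ c : ℝ, 0 < c ∧ ∀ᶠ X : ℕ in atTop,
    c * Real.log X ≤ PS (OP X) (fun p => ws X j0 p / p) (fun p => wb X p / p) fun Sg B =>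
      ind (NiceS Sg B (tpX X j0) j0 ∧ B.card ≤ mX X ∧ ((∏ p ∈ Sg, p) * ∏ p ∈ B, p) ^ 3 ≤ X)

/-- tuples and sets -/
structure SCFG : Prop where
  tsb : ∀ (m T : ℕ) (w w' : ℕ → ℝ) (Ψ : Finset ℕ → ℕ → ℝ), w 0 = 0 → w' 0 = 0 →
    TS m T w w' (fun p P => Ψ (univ.image p) P) = m.factorial *
      ∑ B ∈ powersetCard m (range (T + 1)), ∑ P ∈ range (T + 1),
        if P ∉ B ∧ (∏ p ∈ B, p) * P ≤ T then (∏ p ∈ B, w p) * w' P * Ψ B P else 0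
  mono : ∀ (m T : ℕ) (w w' : ℕ → ℝ) (Ψ Ψ' : (Fin m → ℕ) → ℕ → ℝ), (∀ p, 0 ≤ w p) →
    (∀ p, 0 ≤ w' p) → (∀ p P, Function.Injective p → (∀ i, p i ≠ P) → (∀ i, w (p i) ≠ 0) →
      w' P ≠ 0 → (∏ i, p i) * P ≤ T → Ψ p P ≤ Ψ' p P) → TS m T w w' Ψ ≤ TS m T w w' Ψ'
  add : ∀ (m T : ℕ) (w w' : ℕ → ℝ) (Ψ Ψ' : (Fin m → ℕ) → ℕ → ℝ),
    TS m T w w' (fun p P => Ψ p P + Ψ' p P) = TS m T w w' Ψ + TS m T w w' Ψ'
  cmul : ∀ (m T : ℕ) (w w' : ℕ → ℝ) (c : ℝ) (Ψ : (Fin m → ℕ) → ℕ → ℝ),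
    TS m T w w' (fun p P => c * Ψ p P) = c * TS m T w w' Ψ
  sum : ∀ (κ : Type) (s : Finset κ) (m T : ℕ) (w w' : ℕ → ℝ) (Ψ : κ → (Fin m → ℕ) → ℕ → ℝ),
    TS m T w w' (fun p P => ∑ i ∈ s, Ψ i p P) = ∑ i ∈ s, TS m T w w' (Ψ i)
  nice : ∀ (Sg : Finset ℕ) (m : ℕ) (p : Fin m → ℕ) (P tp j0 : ℕ), Function.Injective p →
    (∀ l ∈ Sg, Gd 0 l) → (∀ i, Gd 0 (p i) ∧ p i ∉ Sg) → NiceS Sg (univ.image p) tp j0 →
    Nice (fun i => lev (prs Sg p i)) (fun i => eps (prs Sg p i)) (BB Sg m) (Sm0 (prs Sg p) P) tp j0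

/-- the inequality for fixed small primes -/
def SF1 : Prop :=
  ∃ (A j0 : ℕ) (c : ℝ), 20 ≤ j0 ∧ 0 < c ∧ ∀ (tp : ℕ) (Sg : Finset ℕ) (m T Y : ℕ) (w w' : ℕ → ℝ)
    (δ : ℝ), A < tp → (∀ l ∈ Sg, Gd 0 l) → Wt Sg Y w → Wt Sg Y w' → (∀ P, w' P ≠ 0 → P % 8 = 5) →
    0 ≤ δ → (∀ n ≤ (j0 + tp) / 5, ∀ D : Dat n, Bil D.rr (Gd n) Y T δ) →
    c * TS m T w w' (fun p P => ind (Nice (fun i => lev (prs Sg p i)) (fun i => eps (prs Sg p i))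
        (BB Sg m) (Sm0 (prs Sg p) P) tp j0)) -
      (2 * tp + 1) * (δ * T * EE (2 ^ ((j0 + tp) / 5)) Sg.card m T) ≤
    TS m T w w' fun p P => ind ((P * ∏ i, prs Sg p i) % 8 = 5 ∧ Green2 (kD (P * ∏ i, prs Sg p i)))

/-- every integer is counted with weight at most one -/
def SF2 : Prop :=
  ∀ (X z m0 : ℕ) (a b : ℕ → ℝ) (Q : ℕ → Prop), (∀ p ∈ OP X, 0 ≤ a p ∧ 0 ≤ b p ∧ a p + b p ≤ 1) →
    CS X z m0 a b (fun Sg _ p P => ind (Q (P * ∏ i, prs Sg p i))) ≤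
      ({d : ℕ | d ≤ X ∧ Squarefree d ∧ Q d}.ncard : ℝ)

/-- lower bound for the sum over the good configurations -/
def SF3 : Prop :=
  ∀ j0 : ℕ, 20 ≤ j0 → ∃ c : ℝ, 0 < c ∧ ∀ᶠ X : ℕ in atTop,
    c * X ≤ CS X (xx (tpX X j0) j0 (tpX X j0 / 2 + 1)) (mX X) (ws X j0) (wb X) fun Sg m p P =>
      ind (Nice (fun i => lev (prs Sg p i)) (fun i => eps (prs Sg p i)) (BB Sg m)
        (Sm0 (prs Sg p) P) (tpX X j0) j0)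

/-- the error is small -/
def SASY : Prop :=
  ∀ C j0 : ℕ, Tendsto (fun X : ℕ => (2 * tpX X j0 + 1) * (mX X + 1) * (Real.log X + 2) *
    (dl C (2 ^ ((j0 + tpX X j0) / 5)) (YY X) X *
      EE (2 ^ ((j0 + tpX X j0) / 5)) (xx (tpX X j0) j0 (tpX X j0 / 2 + 1)) (mX X) X)) atTop (𝓝 0)

/-- the theorem -/
def SFIN : Prop :=
  ∃ c : ℝ, 0 < c ∧ ∃ X₀ : ℕ, ∀ X : ℕ, X₀ ≤ X →
    c * (Set.ncard {D : ℕ | D ≤ X ∧ Fund D} : ℝ) ≤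
      (Set.ncard {D : ℕ | D ≤ X ∧ Fund D ∧ Green2 (kD D)} : ℝ)

def OfRECT : Prop := SAMP → SRECT
def OfSH1 : Prop := SCY → SDEC → SQR → SDAT → SSH1
def OfSH2 : Prop := SCY → SUN → SQR → SDAT → SSH2
def OfBIL : Prop := SRECT → SHYP → SSH1 → SSH2 → SBIL
def OfUL : Prop := SAVG → SUL
def OfEQ : Prop := SAVG → SDEC → SLAM → SQR → SDAT → SSYM → SUL → SEQ
def OfMASS : Prop := SLOG → SMASS
def OfDET : Prop := SQR → SMASS → SCHI → SDET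
def OfNA : Prop := SPM → SNA
def OfTR : Prop := SMASS → SPRM → STR
def OfNB : Prop := SDEC → SMASS → SDET → SPRM → STR → SNB
def OfNC : Prop := SDEC → SMASS → SPRM → STR → SNC
def OfMAIN : Prop := SPRM → SNA → SNB → SNC → SMAIN
def OfCFG : Prop := SQR → SCFG
def OfF1 : Prop := SAVG → SLAM → SQR → SDAT → SSYM → SCRIT → SRM0 → SRMN → SPAR → SEQ → SCFG → SF1
def OfF2 : Prop := SCFG → SF2
def OfF3 : Prop := SPRM → SPC → SMAIN → SCFG → SF3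
def OfASY : Prop := SPRM → SASY
def OfFIN : Prop := SPRM → SBIL → SF1 → SF2 → SF3 → SASY → SFIN

end Pool.Agent.MP_1246c0_nt.H12
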